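import Pool.Agent.Zk84.M4.Stm6
import Pool.Agent.Zk76.Wt.Bound

set_option autoImplicit false

/-!
From bodies of `ℂ × ℂ` to bodies of `ℝ⁴`.
-/

namespace Pool.Agent.Zk76.M4

open Complex Set Pool.Agent.Zk76.Wt Pool.Agent.Zk84.M4

theorem exp_I (r : ℝ) : Complex.exp ((r : ℂ) * Complex.I) = ⟨Real.cos r, Real.sin r⟩ :=
  Complex.ext (Complex.exp_ofReal_mul_I_re r) (Complex.exp_ofReal_mul_I_im r)

theorem t12_key (h : CoverNot) {a b α β : ℝ} (hβ : β ≠ 0) (h0 : 0 ≤ α / β) (h1 : α / β ≤ 1)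
    (h2 : α / β ≠ 1 / 2) (T : EuclideanSpace ℝ (Fin 4) ≃ₗ[ℝ] ℂ × ℂ)
    (hT : ∀ t x, T (turn a b t x) = (Complex.exp (((α * t : ℝ) : ℂ) * Complex.I) * (T x).1,
      Complex.exp (((β * t : ℝ) : ℂ) * Complex.I) * (T x).2))
    {K : Set (EuclideanSpace ℝ (Fin 4))} (hK : Convex ℝ K) (hc : IsCompact K)
    (hi : (interior K).Nonempty) (ht : ∀ (t : ℝ), ∀ x ∈ K, turn a b t x ∈ K) : Cov 12 K := by
  refine cov_transfer T.toAffineEquiv (h (α / β) h0 h1 h2 _
    (hK.affine_image T.toAffineEquiv.toAffineMap)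
    (hc.image (T.toAffineEquiv.toHomeomorphOfFiniteDimensional).continuous) ?_ ?_)
  · have h3 := image_interior_aff T.toAffineEquiv K
    have h4 : (T.toAffineEquiv '' interior K).Nonempty := hi.image _
    rw [h3] at h4
    exact h4
  · rintro t x ⟨y, hy, rfl⟩
    refine ⟨turn a b (t / β) y, ht _ y hy, ?_⟩
    change T (turn a b (t / β) y) = (_ * (T y).1, _ * (T y).2)
    rw [hT]
    have e1 : ((α * (t / β) : ℝ) : ℂ) = ((α / β : ℝ) : ℂ) * (t : ℂ) := by
      rw [← Complex.ofReal_mul]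
      congr 1
      field_simp
    have e2 : β * (t / β) = t := by field_simp
    rw [e1, e2]

theorem cos_sgn {s : ℝ} (hs : s = 1 ∨ s = -1) (x : ℝ) : Real.cos (s * x) = Real.cos x := by
  rcases hs with rfl | rfl
  · rw [one_mul]
  · rw [neg_one_mul, Real.cos_neg]

theorem sin_sgn {s : ℝ} (hs : s = 1 ∨ s = -1) (x : ℝ) : Real.sin (s * x) = s * Real.sin x := by
  rcases hs with rfl | rfl
  · rw [one_mul, one_mul]
  · rw [neg_one_mul, Real.sin_neg, neg_one_mul]

theorem sq_sgn {s : ℝ} (hs : s = 1 ∨ s = -1) : s * s = 1 := by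
  rcases hs with rfl | rfl <;> norm_num

noncomputable def TA (s : ℝ) (hs : s = 1 ∨ s = -1) : EuclideanSpace ℝ (Fin 4) ≃ₗ[ℝ] ℂ × ℂ where
  toFun x := (⟨x 0, s * x 1⟩, ⟨x 2, x 3⟩)
  map_add' x y := by
    refine Prod.ext (Complex.ext ?_ ?_) (Complex.ext ?_ ?_) <;> simp [mul_add]
  map_smul' r x := by
    refine Prod.ext (Complex.ext ?_ ?_) (Complex.ext ?_ ?_) <;> simp <;> ring
  invFun z := !₂[z.1.re, s * z.1.im, z.2.re, z.2.im]
  left_inv x := by
    have h := sq_sgn hs
    ext i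
    fin_cases i
    · simp
    · simp only [Fin.mk_one, Fin.isValue, PiLp.toLp_apply, Matrix.cons_val_one, Matrix.cons_val_zero]
      rw [← mul_assoc, h, one_mul]
    · simp
    · simp
  right_inv z := by
    have h := sq_sgn hs
    refine Prod.ext (Complex.ext ?_ ?_) (Complex.ext ?_ ?_)
    · simp
    · change s * (s * z.1.im) = z.1.im
      rw [← mul_assoc, h, one_mul]
    · simp
    · simp

noncomputable def TB (s : ℝ) (hs : s = 1 ∨ s = -1) : EuclideanSpace ℝ (Fin 4) ≃ₗ[ℝ] ℂ × ℂ where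
  toFun x := (⟨x 2, s * x 3⟩, ⟨x 0, x 1⟩)
  map_add' x y := by
    refine Prod.ext (Complex.ext ?_ ?_) (Complex.ext ?_ ?_) <;> simp [mul_add]
  map_smul' r x := by
    refine Prod.ext (Complex.ext ?_ ?_) (Complex.ext ?_ ?_) <;> simp <;> ring
  invFun z := !₂[z.2.re, z.2.im, z.1.re, s * z.1.im]
  left_inv x := by
    have h := sq_sgn hs
    ext i
    fin_cases i
    · simp
    · simp
    · simp
    · change s * (s * x 3) = x 3
      rw [← mul_assoc, h, one_mul]
  right_inv z := by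
    have h := sq_sgn hs
    refine Prod.ext (Complex.ext ?_ ?_) (Complex.ext ?_ ?_)
    · simp
    · change s * (s * z.1.im) = z.1.im
      rw [← mul_assoc, h, one_mul]
    · simp
    · simp

theorem TA_turn (s : ℝ) (hs : s = 1 ∨ s = -1) (a b t : ℝ) (x : EuclideanSpace ℝ (Fin 4)) :
    TA s hs (turn a b t x) = (Complex.exp (((s * a * t : ℝ) : ℂ) * Complex.I) * (TA s hs x).1,
      Complex.exp (((b * t : ℝ) : ℂ) * Complex.I) * (TA s hs x).2) := by
  have h := sq_sgn hs
  rw [exp_I, exp_I, mul_assoc s a t, cos_sgn hs, sin_sgn hs]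
  refine Prod.ext (Complex.ext ?_ ?_) (Complex.ext ?_ ?_)
  · change Real.cos (a * t) * x 0 - Real.sin (a * t) * x 1 =
      Real.cos (a * t) * x 0 - s * Real.sin (a * t) * (s * x 1)
    linear_combination (Real.sin (a * t) * x 1) * h
  · change s * (Real.sin (a * t) * x 0 + Real.cos (a * t) * x 1) =
      Real.cos (a * t) * (s * x 1) + s * Real.sin (a * t) * x 0
    ring
  · change Real.cos (b * t) * x 2 - Real.sin (b * t) * x 3 =
      Real.cos (b * t) * x 2 - Real.sin (b * t) * x 3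
    rfl
  · change Real.sin (b * t) * x 2 + Real.cos (b * t) * x 3 =
      Real.cos (b * t) * x 3 + Real.sin (b * t) * x 2
    ring

theorem TB_turn (s : ℝ) (hs : s = 1 ∨ s = -1) (a b t : ℝ) (x : EuclideanSpace ℝ (Fin 4)) :
    TB s hs (turn a b t x) = (Complex.exp (((s * b * t : ℝ) : ℂ) * Complex.I) * (TB s hs x).1,
      Complex.exp (((a * t : ℝ) : ℂ) * Complex.I) * (TB s hs x).2) := by
  have h := sq_sgn hs
  rw [exp_I, exp_I, mul_assoc s b t, cos_sgn hs, sin_sgn hs]
  refine Prod.ext (Complex.ext ?_ ?_) (Complex.ext ?_ ?_)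
  · change Real.cos (b * t) * x 2 - Real.sin (b * t) * x 3 =
      Real.cos (b * t) * x 2 - s * Real.sin (b * t) * (s * x 3)
    linear_combination (Real.sin (b * t) * x 3) * h
  · change s * (Real.sin (b * t) * x 2 + Real.cos (b * t) * x 3) =
      Real.cos (b * t) * (s * x 3) + s * Real.sin (b * t) * x 2
    ring
  · change Real.cos (a * t) * x 0 - Real.sin (a * t) * x 1 =
      Real.cos (a * t) * x 0 - Real.sin (a * t) * x 1
    rfl
  · change Real.sin (a * t) * x 0 + Real.cos (a * t) * x 1 =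
      Real.cos (a * t) * x 1 + Real.sin (a * t) * x 0
    ring

/-- the sign which makes the quotient nonnegative -/
theorem exists_sgn (q : ℝ) : ∃ s : ℝ, (s = 1 ∨ s = -1) ∧ s * q = |q| := by
  rcases le_total 0 q with h | h
  · exact ⟨1, Or.inl rfl, by rw [one_mul, abs_of_nonneg h]⟩
  · exact ⟨-1, Or.inr rfl, by rw [abs_of_nonpos h, neg_one_mul]⟩

theorem t12 : T12 := by
  intro h a b hab h1 h2 K hK hc hi ht
  have key : ∀ p q : ℝ, q ≠ 0 → |p| ≤ |q| → |q| ≠ 2 * |p| → ∃ s : ℝ, (s = 1 ∨ s = -1) ∧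
      0 ≤ s * p / q ∧ s * p / q ≤ 1 ∧ s * p / q ≠ 1 / 2 := by
    intro p q hq hpq hne
    obtain ⟨s, hs, hsq⟩ := exists_sgn (p / q)
    have hq' : 0 < |q| := abs_pos.2 hq
    have e : s * p / q = |p| / |q| := by
      rw [mul_div_assoc, hsq, abs_div]
    refine ⟨s, hs, ?_, ?_, ?_⟩
    · rw [e]; positivity
    · rw [e, div_le_one hq']; exact hpq
    · rw [e]
      intro h3
      rw [div_eq_div_iff hq'.ne' two_ne_zero] at h3
      apply hne
      linarith
  rcases le_total |a| |b| with hle | hle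
  · have hb : b ≠ 0 := by
      rintro rfl
      rw [abs_zero] at hle
      have ha : a = 0 := abs_nonpos_iff.1 hle
      rcases hab with h3 | h3
      · exact h3 ha
      · exact h3 rfl
    obtain ⟨s, hs, k0, k1, k2⟩ := key a b hb hle h2
    exact t12_key h hb k0 k1 k2 (TA s hs) (fun t x => TA_turn s hs a b t x) hK hc hi ht
  · have ha : a ≠ 0 := by
      rintro rfl
      rw [abs_zero] at hle
      have hb : b = 0 := abs_nonpos_iff.1 hle
      rcases hab with h3 | h3
      · exact h3 rfl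
      · exact h3 hb
    obtain ⟨s, hs, k0, k1, k2⟩ := key b a ha hle h1
    exact t12_key h ha k0 k1 k2 (TB s hs) (fun t x => TB_turn s hs a b t x) hK hc hi ht

end Pool.Agent.Zk76.M4
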