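import Pool.Agent.Zk84.M3.Stm
import Pool.Agent.Zk76.Pm.Bulge

/-!
Illumination of bodies which are invariant under a circle group (module W4).
-/

set_option autoImplicit false
set_option maxHeartbeats 1000000

namespace Pool.Agent.Zk76.M3W4

open Complex Set Filter Topology Pool.Agent.Zk76.Wt Pool.Agent.Zk84.M3

theorem w4 : Pool.Agent.Zk84.M3.W4 := by
  intro k K h x u y z hx hy hz l w B a hB ha hal hu
  have key := Pool.Agent.Zk76.Pm.co_of_nor (x := x) (d := -u) h.conv ⟨0, h.zero⟩ hx ?_
  · obtain ⟨ε, hε, h1⟩ := key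
    refine ⟨ε, hε, ?_⟩
    rwa [smul_neg, ← sub_eq_add_neg] at h1
  · intro φ hφ0 hφ
    -- `φ x` is positive
    have hpos : 0 < φ x := by
      obtain ⟨v, hv⟩ : ∃ v, φ v ≠ 0 := by
        by_contra hcon
        push Not at hcon
        exact hφ0 (ContinuousLinearMap.ext fun v => by rw [hcon v]; rfl)
      have hsgn : ∃ v', 0 < φ v' := by
        rcases lt_or_gt_of_ne hv with h1 | h1
        · exact ⟨-v, by rw [map_neg]; linarith⟩
        · exact ⟨v, h1⟩
      obtain ⟨v', hv'⟩ := hsgn
      obtain ⟨ε, hε, h1⟩ := Pool.Agent.H843R3.Had2.Co.of_interior h.zero v'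
      have h2 := hφ _ (interior_subset h1)
      rw [zero_add, map_smul, smul_eq_mul] at h2
      have : 0 < ε * φ v' := mul_pos hε hv'
      linarith
    -- the derivative along the orbit
    have hder : φ ((k : ℂ) * I * x.1, I * x.2) = 0 := by
      set f : ℝ → ℝ := fun t => φ (Complex.exp ((k : ℂ) * (t : ℂ) * I) * x.1,
        Complex.exp ((t : ℂ) * I) * x.2) with hf
      have hmax : IsLocalMax f 0 := by
        refine Filter.Eventually.of_forall fun t => ?_
        have h1 := hφ _ (h.inv t x hx)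
        have h2 : f 0 = φ x := by
          rw [hf]
          simp
        rw [h2]
        exact h1
      have hd1 : HasDerivAt (fun t : ℝ => Complex.exp ((k : ℂ) * (t : ℂ) * I) * x.1)
          ((k : ℂ) * I * x.1) 0 := by
        have h1 : HasDerivAt (fun t : ℝ => (k : ℂ) * (t : ℂ) * I) ((k : ℂ) * 1 * I) 0 :=
          ((Complex.ofRealCLM.hasDerivAt (x := (0 : ℝ))).const_mul (k : ℂ)).mul_const I
        have h2 := (h1.cexp).mul_const x.1
        have e : Complex.exp ((k : ℂ) * ((0 : ℝ) : ℂ) * I) * ((k : ℂ) * 1 * I) * x.1 =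
            (k : ℂ) * I * x.1 := by simp
        rw [← e]
        exact h2
      have hd2 : HasDerivAt (fun t : ℝ => Complex.exp ((t : ℂ) * I) * x.2) (I * x.2) 0 := by
        have h1 : HasDerivAt (fun t : ℝ => (t : ℂ) * I) (1 * I) 0 :=
          (Complex.ofRealCLM.hasDerivAt (x := (0 : ℝ))).mul_const I
        have h2 := (h1.cexp).mul_const x.2
        have e : Complex.exp (((0 : ℝ) : ℂ) * I) * (1 * I) * x.2 = I * x.2 := by simp
        rw [← e]
        exact h2
      have hd : HasDerivAt f (φ ((k : ℂ) * I * x.1, I * x.2)) 0 :=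
        φ.hasFDerivAt.comp_hasDerivAt (0 : ℝ) (hd1.prodMk hd2)
      exact hmax.hasDerivAt_eq_zero hd
    rw [map_neg, hu, map_sub, map_add, map_add, map_smul, map_smul, map_smul, map_smul, hder,
      map_sub]
    simp only [smul_eq_mul, mul_zero, add_zero]
    have h1 := hφ y hy
    have h2 := hφ z hz
    have h3 : 0 ≤ B * (φ x - φ y) := mul_nonneg hB (by linarith)
    have h4 : a * φ z ≤ a * φ x := mul_le_mul_of_nonneg_left h2 ha
    have h5 : 0 < (l - a) * φ x := mul_pos (by linarith) hpos
    linarith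

end Pool.Agent.Zk76.M3W4
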