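import Pool.Agent.Zk84.M3.Stm
import Pool.Agent.Zk76.Pm.Bulge
import Pool.Agent.W677.Summand3

/-!
Bodies of `ℂ × ℂ` which are invariant under the rotations of the second factor (module W5).
-/

set_option autoImplicit false
set_option maxHeartbeats 1000000

namespace Pool.Agent.Zk76.M3W5

open Complex Set Filter Topology Pool.Agent.Zk76.Wt Pool.Agent.Zk84.M3
open Pool.Agent.H843R3.Had2 (Cn Co unif)

/-- planar bodies -/
theorem cov_plane {F : Set ℂ} (hF : Convex ℝ F) (hc : IsCompact F) (hi : (interior F).Nonempty) :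
    Cov 4 F := by
  let e : ℂ ≃ₗ[ℝ] EuclideanSpace ℝ (Fin 2) := LinearEquiv.ofFinrankEq _ _ (by
    rw [Complex.finrank_real_complex]; simp)
  refine cov_transfer e.toAffineEquiv ?_
  have hcont : Continuous e.toAffineEquiv :=
    LinearMap.continuous_of_finiteDimensional (e : ℂ →ₗ[ℝ] EuclideanSpace ℝ (Fin 2))
  have h1 : Pool.Agent.W677.Summand.Bdy (e.toAffineEquiv '' F) := by
    refine ⟨hF.affine_image e.toAffineEquiv.toAffineMap, hc.image hcont, ?_⟩
    rw [← image_interior_aff]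
    exact hi.image _
  exact Pool.Agent.W677.Summand.body_le_two (le_refl 2) h1

/-- three directions of the plane -/
theorem three_dirs (x : ℂ) : ∃ v ∈ ({2, ⟨-1, 2⟩, ⟨-1, -2⟩} : Finset ℂ),
    ‖x‖ / 2 ≤ v.re * x.re + v.im * x.im := by
  by_contra hcon
  push Not at hcon
  have h1 := hcon 2 (by simp)
  have h2 := hcon ⟨-1, 2⟩ (by simp)
  have h3 := hcon ⟨-1, -2⟩ (by simp)
  simp only [Complex.re_ofNat, Complex.im_ofNat, zero_mul, add_zero] at h1 h2 h3
  have h4 : ‖x‖ ≤ |x.re| + |x.im| := Complex.norm_le_abs_re_add_abs_im x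
  have h5 : 0 ≤ ‖x‖ := norm_nonneg x
  rcases abs_cases x.re with ⟨h6, h7⟩ | ⟨h6, h7⟩ <;>
    rcases abs_cases x.im with ⟨h8, h9⟩ | ⟨h8, h9⟩ <;> rw [h6, h8] at h4 <;> linarith

theorem w5 : Pool.Agent.Zk84.M3.W5 := by
  classical
  intro K hK hc hi hinv
  -- the axis
  have hneg : ∀ x ∈ K, (x.1, -x.2) ∈ K := by
    intro x hx
    have h1 := hinv Real.pi x hx
    rw [Complex.exp_pi_mul_I] at h1
    simpa using h1
  have hax : ∀ x ∈ K, (x.1, (0 : ℂ)) ∈ K := by
    intro x hx
    have h1 := hK hx (hneg x hx) (a := 1 / 2) (b := 1 / 2) (by norm_num) (by norm_num)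
      (by norm_num)
    have h2 : (1 / 2 : ℝ) • x + (1 / 2 : ℝ) • ((x.1, -x.2) : ℂ × ℂ) = (x.1, 0) := by
      ext1
      · simp only [Prod.fst_add, Prod.smul_fst]
        rw [← add_smul]; norm_num
      · simp
    rwa [h2] at h1
  have hdisc : ∀ x ∈ K, ∀ w : ℂ, ‖w‖ ≤ ‖x.2‖ → (x.1, w) ∈ K := by
    intro x hx w hw
    rcases (norm_nonneg x.2).eq_or_lt with h0 | h0
    · have h1 : w = 0 := norm_le_zero_iff.1 (by rw [h0]; exact hw)
      rw [h1]
      exact hax x hx
    · have h1 := hinv (w / x.2).arg x hx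
      have h2 := hK h1 (hax x hx) (a := ‖w‖ / ‖x.2‖) (b := 1 - ‖w‖ / ‖x.2‖) (by positivity)
        (by rw [sub_nonneg, div_le_one h0]; exact hw) (by ring)
      have h3 : (‖w‖ / ‖x.2‖) • ((x.1, Complex.exp (((w / x.2).arg : ℂ) * I) * x.2) : ℂ × ℂ) +
          (1 - ‖w‖ / ‖x.2‖) • ((x.1, 0) : ℂ × ℂ) = (x.1, w) := by
        have hx2 : x.2 ≠ 0 := norm_pos_iff.1 h0
        ext1
        · simp only [Prod.fst_add, Prod.smul_fst]
          rw [← add_smul]; simp
        · simp only [Prod.snd_add, Prod.smul_snd, smul_zero, add_zero, Complex.real_smul]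
          have h4 := Complex.norm_mul_exp_arg_mul_I (w / x.2)
          rw [norm_div] at h4
          rw [← mul_assoc, h4, div_mul_cancel₀ _ hx2]
      rwa [h3] at h2
  -- interior points on the axis
  obtain ⟨p, hp⟩ := hi
  have hpi : ((p.1, (0 : ℂ)) : ℂ × ℂ) ∈ interior K := by
    have h1 : ((p.1, -p.2) : ℂ × ℂ) ∈ interior K := by
      let g : (ℂ × ℂ) ≃ₜ (ℂ × ℂ) := (Homeomorph.refl ℂ).prodCongr (Homeomorph.neg ℂ)
      have h2 : K ⊆ g ⁻¹' K := fun z hz => hneg z hz
      have h3 : interior K ⊆ g ⁻¹' (interior K) := by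
        rw [g.preimage_interior]
        exact interior_mono h2
      exact h3 hp
    have h2 := hK.interior hp h1 (a := 1 / 2) (b := 1 / 2) (by norm_num) (by norm_num)
      (by norm_num)
    have h3 : (1 / 2 : ℝ) • p + (1 / 2 : ℝ) • ((p.1, -p.2) : ℂ × ℂ) = (p.1, 0) := by
      ext1
      · simp only [Prod.fst_add, Prod.smul_fst]
        rw [← add_smul]; norm_num
      · simp
    rwa [h3] at h2
  -- the base
  set F : Set ℂ := {z | ((z, (0 : ℂ)) : ℂ × ℂ) ∈ K} with hFdef
  have hcontF : Continuous (fun z : ℂ => ((z, (0 : ℂ)) : ℂ × ℂ)) := by fun_prop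
  have hFconv : Convex ℝ F := by
    intro a ha b hb s t hs ht hst
    have h1 := hK ha hb hs ht hst
    have h2 : s • ((a, (0 : ℂ)) : ℂ × ℂ) + t • ((b, (0 : ℂ)) : ℂ × ℂ) = (s • a + t • b, 0) := by
      ext1
      · rfl
      · simp
    rw [h2] at h1
    exact h1
  have hFcomp : IsCompact F := by
    have h1 : F = (fun x : ℂ × ℂ => x.1) '' K := by
      ext z
      constructor
      · intro hz
        exact ⟨(z, 0), hz, rfl⟩
      · rintro ⟨x, hx, rfl⟩
        exact hax x hx
    rw [h1]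
    exact hc.image continuous_fst
  have hFint : p.1 ∈ interior F := by
    have h1 : (fun z : ℂ => ((z, (0 : ℂ)) : ℂ × ℂ)) ⁻¹' (interior K) ⊆ interior F :=
      interior_maximal (preimage_mono interior_subset) (isOpen_interior.preimage hcontF)
    exact h1 hpi
  have hlift : ∀ z ∈ interior F, ((z, (0 : ℂ)) : ℂ × ℂ) ∈ interior K := by
    intro z hz
    obtain ⟨ε, hε, h1⟩ := Pool.Agent.H843R3.Had2.Co.of_interior hz (z - p.1)
    have h2 : ((z + ε • (z - p.1), (0 : ℂ)) : ℂ × ℂ) ∈ K := by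
      have h2' : z + ε • (z - p.1) ∈ F := interior_subset h1
      exact h2'
    have h3 := hK.combo_self_interior_mem_interior h2 hpi (a := 1 / (1 + ε))
      (b := ε / (1 + ε)) (by positivity) (by positivity) (by field_simp)
    have h4 : (1 / (1 + ε)) • ((z + ε • (z - p.1), (0 : ℂ)) : ℂ × ℂ) +
        (ε / (1 + ε)) • ((p.1, (0 : ℂ)) : ℂ × ℂ) = (z, 0) := by
      have h5 : (1 + ε : ℝ) ≠ 0 := by positivity
      ext1
      · simp only [Prod.fst_add, Prod.smul_fst]
        have e1 : z + ε • (z - p.1) = (1 + ε) • z - ε • p.1 := by module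
        rw [e1, smul_sub, smul_smul, smul_smul]
        have e2 : 1 / (1 + ε) * (1 + ε) = 1 := by field_simp
        have e3 : 1 / (1 + ε) * ε = ε / (1 + ε) := by ring
        rw [e2, e3, one_smul]
        abel
      · simp
    rwa [h4] at h3
  obtain ⟨W, hW, hW1⟩ := Pool.Agent.W677.Summand.dirs_of_cover
    (cov_plane hFconv hFcomp ⟨_, hFint⟩)
  obtain ⟨r, hr, hr1⟩ := unif hFconv hFcomp subset_rfl (fun w : W => (w : ℂ)) (fun z hz => by
    obtain ⟨w, hw, h1⟩ := hW1 z hz
    exact ⟨⟨w, hw⟩, h1⟩)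
  obtain ⟨R, hR⟩ := hc.isBounded.exists_norm_le
  have hR2 : ∀ x ∈ K, ‖x.2‖ ≤ R := fun x hx => (norm_snd_le x).trans (hR x hx)
  have hR0 : 0 ≤ R := (norm_nonneg _).trans (hR _ (interior_subset hp))
  set N : ℝ := 2 * (R + 1) / r with hN
  have hNr : r * N = 2 * (R + 1) := by rw [hN]; field_simp
  set V : Finset ℂ := {2, ⟨-1, 2⟩, ⟨-1, -2⟩} with hV
  have hVc : V.card ≤ 3 := Finset.card_le_three
  set D : Finset (ℂ × ℂ) := W.image (fun w => ((-w, 0) : ℂ × ℂ)) ∪
    (W ×ˢ V).image (fun wv => ((-wv.1, (N : ℂ) * wv.2) : ℂ × ℂ)) with hD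
  have hDc : D.card ≤ 16 := by
    refine (Finset.card_union_le _ _).trans ?_
    have h1 : (W.image (fun w => ((-w, 0) : ℂ × ℂ))).card ≤ 4 := Finset.card_image_le.trans hW
    have h2 : ((W ×ˢ V).image (fun wv => ((-wv.1, (N : ℂ) * wv.2) : ℂ × ℂ))).card ≤ 12 := by
      refine Finset.card_image_le.trans ?_
      rw [Finset.card_product]
      calc W.card * V.card ≤ 4 * 3 := Nat.mul_le_mul hW hVc
        _ = 12 := by norm_num
    omega
  obtain ⟨S, hS, hcov⟩ := Pool.Agent.H765R3.Had.cover_of_dirs hK hc D (by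
    intro x hx
    obtain ⟨⟨w, hw⟩, hw1⟩ := hr1 x.1 (hax x hx)
    have hy := hlift _ hw1
    by_cases hx2 : x.2 = 0
    · refine ⟨(-w, 0), Finset.mem_union_left _ (Finset.mem_image_of_mem _ hw), r, hr, ?_⟩
      have h1 : x - r • ((-w, 0) : ℂ × ℂ) = (x.1 + r • w, 0) := by
        ext1
        · simp
        · simp [hx2]
      rw [h1]
      exact hy
    · obtain ⟨v, hv, hv1⟩ := three_dirs x.2
      have hx0 : 0 < ‖x.2‖ := norm_pos_iff.2 hx2
      set u : ℂ := x.2 - ((r * N : ℝ) : ℂ) * v with hu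
      have hneg2 : u.re * x.2.re + u.im * x.2.im < 0 := by
        have h1 : u.re * x.2.re + u.im * x.2.im = ‖x.2‖ ^ 2 -
            (r * N) * (v.re * x.2.re + v.im * x.2.im) := by
          rw [← Complex.normSq_eq_norm_sq, Complex.normSq_apply, hu]
          simp only [Complex.sub_re, Complex.sub_im, Complex.re_ofReal_mul, Complex.im_ofReal_mul]
          ring
        rw [h1, hNr]
        have h2 := hR2 x hx
        nlinarith
      have hcn : Cn K x ((0 : ℂ), u) := by
        set θ : ℝ := -(u.re * x.2.re + u.im * x.2.im) / (‖u‖ ^ 2 + 1) with hθ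
        have hθ0 : 0 < θ := by
          rw [hθ]
          exact div_pos (by linarith) (by positivity)
        refine ⟨θ, hθ0, ?_⟩
        have h1 : x + θ • (((0 : ℂ), u) : ℂ × ℂ) = (x.1, x.2 + θ • u) := by
          ext1
          · simp
          · simp
        rw [h1]
        refine hdisc x hx _ ?_
        rw [← sq_le_sq₀ (norm_nonneg _) (norm_nonneg _), ← Complex.normSq_eq_norm_sq,
          ← Complex.normSq_eq_norm_sq, Complex.normSq_apply, Complex.normSq_apply]
        simp only [Complex.real_smul, Complex.add_re, Complex.add_im, Complex.re_ofReal_mul,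
          Complex.im_ofReal_mul]
        have h2 : ‖u‖ ^ 2 = u.re * u.re + u.im * u.im := by
          rw [← Complex.normSq_eq_norm_sq, Complex.normSq_apply]
        have h3 : θ * (‖u‖ ^ 2 + 1) = -(u.re * x.2.re + u.im * x.2.im) := by
          rw [hθ]; field_simp
        rw [h2] at h3
        have h4 : θ * (u.re * u.re + u.im * u.im) ≤ -(u.re * x.2.re + u.im * x.2.im) := by
          nlinarith
        nlinarith
      have h1 := Co.of hK hcn hy
      have h2 : (((0 : ℂ), u) : ℂ × ℂ) + ((x.1 + r • w, (0 : ℂ)) - x) =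
          r • ((w, -((N : ℂ) * v)) : ℂ × ℂ) := by
        ext1
        · simp
        · simp only [Prod.snd_add, Prod.snd_sub, Prod.smul_snd, Complex.real_smul, hu]
          push_cast
          ring
      rw [h2] at h1
      obtain ⟨ε, hε, h3⟩ := h1.smul (c := 1 / r) (by positivity)
      refine ⟨(-w, (N : ℂ) * v), Finset.mem_union_right _
        (Finset.mem_image.2 ⟨(w, v), Finset.mem_product.2 ⟨hw, hv⟩, rfl⟩), ε, hε, ?_⟩
      rw [smul_smul, smul_smul, mul_assoc, one_div, inv_mul_cancel₀ hr.ne', mul_one] at h3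
      have h4 : x - ε • ((-w, (N : ℂ) * v) : ℂ × ℂ) = x + ε • ((w, -((N : ℂ) * v)) : ℂ × ℂ) := by
        ext1
        · simp
        · simp [sub_eq_add_neg]
      rw [h4]
      exact h3)
  exact ⟨S, hS.trans hDc, hcov⟩

end Pool.Agent.Zk76.M3W5
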