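import Pool.Agent.Zk84.M3.Stm

/-!
The weights between `0` and `1`, apart from `1/2` (module W6).
-/

set_option autoImplicit false
set_option maxHeartbeats 1000000

namespace Pool.Agent.Zk76.M3W6

open Complex Set Pool.Agent.Zk76.Wt Pool.Agent.Zk84.M3

theorem cmb2 {V : Type*} [AddCommGroup V] [Module ℝ V] {K : Set V} (hK : Convex ℝ K) {a b : V}
    (ha : a ∈ K) (hb : b ∈ K) {α β : ℝ} (hα : 0 ≤ α) (hβ : 0 ≤ β) :
    ∃ y ∈ K, (α + β) • y = α • a + β • b := by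
  rcases (add_nonneg hα hβ).eq_or_lt with h | h
  · have h1 : α = 0 := by linarith
    have h2 : β = 0 := by linarith
    exact ⟨a, ha, by simp [h1, h2]⟩
  · refine ⟨(α / (α + β)) • a + (β / (α + β)) • b, hK ha hb (by positivity) (by positivity)
      (by field_simp), ?_⟩
    rw [smul_add, smul_smul, smul_smul, mul_div_cancel₀ _ h.ne', mul_div_cancel₀ _ h.ne']

theorem core {k : ℝ} {K : Set (ℂ × ℂ)} (hk : 0 < k) (hk1 : k < 1) (hk2 : k ≠ 1 / 2)
    (h : Body k K) (w3 : W3) (w4 : W4) {ρ : ℝ} (hρ : 0 < ρ)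
    (hax1 : ∀ z : ℂ, ‖z‖ ≤ ρ → (z, (0 : ℂ)) ∈ K) (hax2 : ∀ w : ℂ, ‖w‖ ≤ 1 → ((0 : ℂ), w) ∈ K)
    {x : ℂ × ℂ} (hx : x ∈ K) {l w p q s : ℝ} (hp : 0 ≤ p)
    (hpq : k ≤ 1 / 4 ∧ q ^ 2 ≤ p ^ 2 ∨ 1 / 4 ≤ k ∧ 3 * q ^ 2 ≤ p ^ 2) (hs : 0 ≤ s)
    (hsx : s = 0 ∨ (x.1, (0 : ℂ)) ∈ K) {u : ℂ × ℂ}
    (hl : ‖(⟨l + p, k * w + q⟩ : ℂ) * x.1 - u.1‖ / ρ + ‖(⟨l + s, w⟩ : ℂ) * x.2 - u.2‖ < l) :
    ∃ ε : ℝ, 0 < ε ∧ x - ε • u ∈ interior K := by
  obtain ⟨e1, e2, b1, b2, hb1, hb2, he1, he2, hpe⟩ := w3 k hk hk1 hk2 K h p q hp hpq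
  set v1 : ℂ := (⟨l + p, k * w + q⟩ : ℂ) * x.1 - u.1 with hv1
  set v2 : ℂ := (⟨l + s, w⟩ : ℂ) * x.2 - u.2 with hv2
  -- the point `z`
  have hz1 : ((((ρ / ‖v1‖ : ℝ)) : ℂ) * v1, (0 : ℂ)) ∈ K := by
    refine hax1 _ ?_
    rw [norm_mul, Complex.norm_real, Real.norm_of_nonneg (by positivity)]
    rcases (norm_nonneg v1).eq_or_lt with h1 | h1
    · rw [← h1, mul_zero]; exact hρ.le
    · rw [div_mul_cancel₀ _ h1.ne']
  have hz2 : ((0 : ℂ), (((1 / ‖v2‖ : ℝ)) : ℂ) * v2) ∈ K := by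
    refine hax2 _ ?_
    rw [norm_mul, Complex.norm_real, Real.norm_of_nonneg (by positivity)]
    rcases (norm_nonneg v2).eq_or_lt with h1 | h1
    · rw [← h1, mul_zero]; exact zero_le_one
    · rw [div_mul_cancel₀ _ h1.ne']
  obtain ⟨z, hz, hza⟩ := cmb2 h.conv hz1 hz2 (α := ‖v1‖ / ρ) (β := ‖v2‖) (by positivity)
    (norm_nonneg _)
  have hzv : (‖v1‖ / ρ + ‖v2‖) • z = (v1, v2) := by
    rw [hza]
    ext1
    · simp only [Prod.fst_add, Prod.smul_fst, smul_zero, add_zero, Complex.real_smul]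
      rcases (norm_nonneg v1).eq_or_lt with h1 | h1
      · have : v1 = 0 := norm_eq_zero.1 h1.symm
        rw [this]; simp
      · rw [← mul_assoc, ← Complex.ofReal_mul]
        have : ‖v1‖ / ρ * (ρ / ‖v1‖) = 1 := by field_simp
        rw [this]; simp
    · simp only [Prod.snd_add, Prod.smul_snd, smul_zero, zero_add, Complex.real_smul]
      rcases (norm_nonneg v2).eq_or_lt with h1 | h1
      · have : v2 = 0 := norm_eq_zero.1 h1.symm
        rw [this]; simp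
      · rw [← mul_assoc, ← Complex.ofReal_mul]
        have : ‖v2‖ * (1 / ‖v2‖) = 1 := by field_simp
        rw [this]; simp
  -- the point `y`
  obtain ⟨z3, hz3, hz3a⟩ : ∃ z3 ∈ K, s • (x - z3) = ((0 : ℂ), (s : ℂ) * x.2) := by
    rcases hsx with h1 | h1
    · exact ⟨x, hx, by rw [h1]; simp only [zero_smul, Complex.ofReal_zero, zero_mul]; rfl⟩
    · refine ⟨_, h1, ?_⟩
      ext1
      · simp
      · simp
  obtain ⟨y1, hy1, hy1a⟩ := cmb2 h.conv (he1 x hx) (he2 x hx) hb1 hb2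
  obtain ⟨y, hy, hya⟩ := cmb2 h.conv hy1 hz3 (add_nonneg hb1 hb2) hs
  refine w4 k K h x u y z hx hy hz l w (b1 + b2 + s) (‖v1‖ / ρ + ‖v2‖)
    (add_nonneg (add_nonneg hb1 hb2) hs) (by positivity) hl ?_
  have e3 : (b1 + b2 + s) • (x - y) = b1 • (x - (e1 * x.1, x.2)) + b2 • (x - (e2 * x.1, x.2)) +
      s • (x - z3) := by
    rw [smul_sub (b1 + b2 + s), hya, hy1a]
    module
  rw [e3, hzv, hz3a]
  have hp1 : (⟨l + p, k * w + q⟩ : ℂ) = l + k * w * I + (b1 * (1 - e1) + b2 * (1 - e2)) := by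
    rw [← hpe]
    apply Complex.ext
    · simp
    · simp
  have hp2 : (⟨l + s, w⟩ : ℂ) = l + s + w * I := by
    apply Complex.ext
    · simp
    · simp
  ext1
  · simp only [Prod.fst_add, Prod.fst_sub, Prod.smul_fst, Complex.real_smul]
    rw [hv1, hp1]
    ring
  · simp only [Prod.snd_add, Prod.snd_sub, Prod.smul_snd, Complex.real_smul]
    rw [hv2, hp2]
    ring

theorem cos_pi_eight : 1 / (10825 / 10000 : ℝ) ≤ Real.cos (Real.pi / 8) := by
  rw [Real.cos_pi_div_eight]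
  have h1 : (1.4142 : ℝ) ≤ √2 := Real.le_sqrt_of_sq_le (by norm_num)
  have h2 : (1.84773 : ℝ) ≤ √(2 + √2) := by
    apply Real.le_sqrt_of_sq_le
    calc (1.84773 : ℝ) ^ 2 ≤ 2 + 1.4142 := by norm_num
      _ ≤ 2 + √2 := by linarith
  calc 1 / (10825 / 10000 : ℝ) ≤ 1.84773 / 2 := by norm_num
    _ ≤ √(2 + √2) / 2 := by linarith

theorem cos_pi_six : 1 / (11548 / 10000 : ℝ) ≤ Real.cos (Real.pi / 6) := by
  rw [Real.cos_pi_div_six]
  have h1 : (1.73205 : ℝ) ≤ √3 := Real.le_sqrt_of_sq_le (by norm_num)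
  calc 1 / (11548 / 10000 : ℝ) ≤ 1.73205 / 2 := by norm_num
    _ ≤ √3 / 2 := by linarith

theorem w6 : Pool.Agent.Zk84.M3.W6 := by
  intro w2 w3 w4 hA hB hD k hk hk1 hk2 K h
  obtain ⟨hax2, hax1, hproj⟩ := w2 k hk hk1 K h
  have hmain : ∀ D : Finset (ℂ × ℂ), D.card ≤ 16 →
      (∀ x ∈ K, ∃ u ∈ D, ∃ ε : ℝ, 0 < ε ∧ x - ε • u ∈ interior K) → Cov 16 K := by
    intro D hD h1
    obtain ⟨S, hS, hcov⟩ := Pool.Agent.H765R3.Had.cover_of_dirs h.conv h.comp D h1
    exact ⟨S, hS.trans hD, hcov⟩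
  have hpi := Real.pi_pos
  by_cases h1 : k ≤ 1 / 4
  · -- small weights
    obtain ⟨D, hD1, hD2⟩ := hD k hk.le h1
    refine hmain D hD1 fun x hx => ?_
    obtain ⟨u, hu, l, w, p, q, hp, hpq, hl⟩ := hD2 x.1 x.2 (h.le1 x hx) (h.le2 x hx)
    refine ⟨u, hu, ?_⟩
    have hcos : 1 / (10825 / 10000 : ℝ) ≤ Real.cos (k * Real.pi / 2) :=
      cos_pi_eight.trans (Real.cos_le_cos_of_nonneg_of_le_pi (by positivity) (by linarith)
        (by nlinarith))
    have hρ : 0 < Real.cos (k * Real.pi / 2) := lt_of_lt_of_le (by norm_num) hcos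
    refine core hk hk1 hk2 h w3 w4 hρ hax1 hax2 hx hp (Or.inl ⟨h1, hpq⟩) (le_refl 0)
      (Or.inl rfl) (l := l) (w := w) ?_
    rw [add_zero]
    refine lt_of_le_of_lt (add_le_add ?_ le_rfl) hl
    rw [div_le_iff₀ hρ]
    have h3 : 1 ≤ 10825 / 10000 * Real.cos (k * Real.pi / 2) := by
      have := mul_le_mul_of_nonneg_left hcos (by norm_num : (0 : ℝ) ≤ 10825 / 10000)
      linarith
    nlinarith [mul_le_mul_of_nonneg_left h3
      (norm_nonneg ((⟨l + p, k * w + q⟩ : ℂ) * x.1 - u.1))]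
  push Not at h1
  by_cases h3 : k = 1 / 3
  · -- the weight `1/3`
    obtain ⟨D, hD1, hD2⟩ := hB
    refine hmain D hD1 fun x hx => ?_
    obtain ⟨u, hu, l, w, p, q, hp, hpq, hl⟩ := hD2 x.1 x.2 (h.le1 x hx) (h.le2 x hx)
    refine ⟨u, hu, ?_⟩
    have hcos : 1 / (11548 / 10000 : ℝ) ≤ Real.cos (k * Real.pi / 2) := by
      have : k * Real.pi / 2 = Real.pi / 6 := by rw [h3]; ring
      rw [this]
      exact cos_pi_six
    have hρ : 0 < Real.cos (k * Real.pi / 2) := lt_of_lt_of_le (by norm_num) hcos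
    refine core hk hk1 hk2 h w3 w4 hρ hax1 hax2 hx hp (Or.inr ⟨h1.le, hpq⟩) (le_refl 0)
      (Or.inl rfl) (l := l) (w := w) ?_
    rw [add_zero]
    have hkw : k * w = w / 3 := by rw [h3]; ring
    rw [hkw]
    refine lt_of_le_of_lt (add_le_add ?_ le_rfl) hl
    rw [div_le_iff₀ hρ]
    have h3 : 1 ≤ 11548 / 10000 * Real.cos (k * Real.pi / 2) := by
      have := mul_le_mul_of_nonneg_left hcos (by norm_num : (0 : ℝ) ≤ 11548 / 10000)
      linarith
    nlinarith [mul_le_mul_of_nonneg_left h3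
      (norm_nonneg ((⟨l + p, w / 3 + q⟩ : ℂ) * x.1 - u.1))]
  · -- the other weights
    have hint : ∀ n : ℕ, k * n ≠ 1 := by
      intro n hn
      have hn0 : (0 : ℝ) < n := by
        rcases Nat.eq_zero_or_pos n with h5 | h5
        · rw [h5] at hn; simp at hn
        · exact_mod_cast h5
      have h5 : (1 : ℝ) < n := by nlinarith
      have h6 : (n : ℝ) < 4 := by nlinarith
      have h7 : 1 < n := by exact_mod_cast h5
      have h8 : n < 4 := by exact_mod_cast h6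
      interval_cases n
      · apply hk2
        push_cast at hn
        linarith
      · apply h3
        push_cast at hn
        linarith
    have hpr := hproj hint
    have hax1' : ∀ z : ℂ, ‖z‖ ≤ 1 → (z, (0 : ℂ)) ∈ K := by
      obtain ⟨x0, hx0, hx1⟩ := h.hit1
      have h5 := hpr x0 hx0
      -- rotations
      have h6 : ∀ t : ℝ, (Complex.exp ((t : ℂ) * I) * x0.1, (0 : ℂ)) ∈ K := by
        intro t
        have h7 := h.inv (t / k) _ h5
        have e1 : (k : ℂ) * ((t / k : ℝ) : ℂ) * I = (t : ℂ) * I := by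
          have : (k : ℂ) ≠ 0 := by exact_mod_cast hk.ne'
          push_cast
          field_simp
        rw [e1] at h7
        simpa using h7
      have h8 : ∀ z : ℂ, ‖z‖ = 1 → (z, (0 : ℂ)) ∈ K := by
        intro z hz
        have h9 := h6 (z / x0.1).arg
        have e2 : Complex.exp (((z / x0.1).arg : ℂ) * I) = z / x0.1 := by
          have h10 := Complex.norm_mul_exp_arg_mul_I (z / x0.1)
          rw [norm_div, hz, hx1] at h10
          simpa using h10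
        rw [e2, div_mul_cancel₀] at h9
        · exact h9
        · intro h11
          rw [h11] at hx1
          simp at hx1
      intro z hz
      rcases (norm_nonneg z).eq_or_lt with h9 | h9
      · have : z = 0 := norm_eq_zero.1 h9.symm
        rw [this]
        exact interior_subset h.zero
      · have h10 := h8 (z / ‖z‖) (by
          rw [norm_div, Complex.norm_real, norm_norm, div_self h9.ne'])
        have h11 := h.conv h10 (interior_subset h.zero : (0 : ℂ × ℂ) ∈ K) h9.le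
          (sub_nonneg.2 hz) (by ring)
        have e3 : ‖z‖ • ((z / ‖z‖, (0 : ℂ)) : ℂ × ℂ) + (1 - ‖z‖) • (0 : ℂ × ℂ) = (z, 0) := by
          have : ((‖z‖ : ℝ) : ℂ) ≠ 0 := by exact_mod_cast h9.ne'
          ext1
          · simp only [Prod.fst_add, Prod.smul_fst, Complex.real_smul, smul_zero, add_zero]
            field_simp
          · simp
        rw [e3] at h11
        exact h11
    obtain ⟨D, hD1, hD2⟩ := hA k h1.le hk1.le
    refine hmain D hD1 fun x hx => ?_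
    obtain ⟨u, hu, l, w, p, q, s, hp, hpq, hs, hl⟩ := hD2 x.1 x.2 (h.le1 x hx) (h.le2 x hx)
    refine ⟨u, hu, ?_⟩
    refine core hk hk1 hk2 h w3 w4 one_pos hax1' hax2 hx hp (Or.inr ⟨h1.le, hpq⟩) hs
      (Or.inr (hpr x hx)) (l := l) (w := w) ?_
    rw [div_one]
    exact hl

end Pool.Agent.Zk76.M3W6
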