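import Pool.Agent.Zk76.M4L13

/-!
A point of a planar convex body is illuminated by a direction, or has an outer normal that
makes an angle of at most `π / 2` with it.
-/

set_option autoImplicit false

open Set Topology

namespace Pool.Agent.Zk76.M4L13

open Pool.Agent.Zk84.M4 (InF Lk)

/-- Hahn–Banach -/
theorem lit_or {P : Set ℂ} (hP : Convex ℝ P) (hi : (interior P).Nonempty) {x w : ℂ}
    (hx : x ∈ P) : (∃ r : ℝ, 0 < r ∧ x + r • w ∈ interior P) ∨ ∃ t, InF P t x ∧ 0 ≤ hh t w := by
  by_contra hcon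
  push Not at hcon
  obtain ⟨h1, h2⟩ := hcon
  let T : Set ℂ := {z | ∃ r : ℝ, 0 < r ∧ z = x + r • w}
  have hT : Convex ℝ T := by
    rintro _ ⟨r, hr, rfl⟩ _ ⟨s, hs, rfl⟩ a b ha hb hab
    refine ⟨a * r + b * s, ?_, ?_⟩
    · rcases ha.eq_or_lt with h | h
      · have : b = 1 := by linarith
        rw [← h, this]; linarith
      · have := mul_pos h hr
        have := mul_nonneg hb hs.le
        linarith
    · simp only [Complex.real_smul]
      have : (b : ℂ) = 1 - a := by
        have : b = 1 - a := by linarith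
        rw [this]; push_cast; ring
      push_cast
      rw [this]
      ring
  have hdisj : Disjoint (interior P) T := by
    rw [Set.disjoint_left]
    rintro z hz ⟨r, hr, rfl⟩
    exact h1 r hr hz
  obtain ⟨f, u, hf1, hf2⟩ := geometric_hahn_banach_open hP.interior isOpen_interior hT hdisj
  have hray : ∀ r : ℝ, 0 < r → u ≤ f x + r * f w := by
    intro r hr
    have := hf2 _ ⟨r, hr, rfl⟩
    rwa [map_add, map_smul, smul_eq_mul] at this
  have hux : u ≤ f x := by
    by_contra hlt
    push Not at hlt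
    rcases le_or_gt (f w) 0 with h | h
    · have := hray 1 one_pos
      linarith
    · have := hray ((u - f x) / (2 * f w)) (by apply div_pos <;> linarith)
      have e : (u - f x) / (2 * f w) * f w = (u - f x) / 2 := by field_simp
      linarith
  have hfw : 0 ≤ f w := by
    by_contra hlt
    push Not at hlt
    have := hray ((f x - u + 1) / (-f w)) (by apply div_pos <;> linarith)
    have hne : f w ≠ 0 := hlt.ne
    have e : (f x - u + 1) / (-f w) * f w = -(f x - u + 1) := by
      rw [div_neg, neg_mul, div_mul_cancel₀ _ hne]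
    linarith
  have hle : ∀ y ∈ P, f y ≤ f x := by
    have hsub : P ⊆ closure (interior P) := by
      rw [hP.closure_interior_eq_closure_of_nonempty_interior hi]
      exact subset_closure
    intro y hy
    have hcl : closure (interior P) ⊆ {z | f z ≤ u} :=
      closure_minimal (fun z hz => (hf1 z hz).le) (isClosed_le f.continuous continuous_const)
    exact (hcl (hsub hy)).trans hux
  set A := f 1 with hA
  set B := f Complex.I with hB
  have hfz : ∀ z : ℂ, f z = A * z.re + B * z.im := by
    intro z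
    have : z = z.re • (1 : ℂ) + z.im • Complex.I := by
      apply Complex.ext <;> simp
    conv_lhs => rw [this]
    rw [map_add, map_smul, map_smul, smul_eq_mul, smul_eq_mul]
    ring
  set q : ℂ := ⟨A, B⟩ with hq
  have hq0 : q ≠ 0 := by
    intro h
    have e1 : A = 0 := congrArg Complex.re h
    have e2 : B = 0 := congrArg Complex.im h
    obtain ⟨z, hz⟩ := hi
    have e3 := hf1 z hz
    have e4 := hray 1 one_pos
    rw [hfz z, e1, e2] at e3
    rw [hfz x, hfz w, e1, e2] at e4
    linarith
  have hn : 0 < ‖q‖ := norm_pos_iff.2 hq0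
  have hcos : ‖q‖ * Real.cos q.arg = A := Complex.norm_mul_cos_arg q
  have hsin : ‖q‖ * Real.sin q.arg = B := Complex.norm_mul_sin_arg q
  have hh1 : ∀ z : ℂ, ‖q‖ * hh q.arg z = f z := by
    intro z
    rw [hfz z, ← hcos, ← hsin]
    unfold hh
    ring
  have h3 := h2 q.arg (inF_iff.2 ⟨hx, fun y hy => by
    refine le_of_mul_le_mul_left ?_ hn
    rw [hh1, hh1]
    exact hle y hy⟩)
  have h4 := mul_neg_of_pos_of_neg hn h3
  rw [hh1] at h4
  linarith


theorem inF_zmul {P : Set ℂ} {t : ℝ} {x : ℂ} (n : ℤ) (h : InF P t x) :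
    InF P (t + n • (2 * Real.pi)) x := by
  have key : ∀ y, hh (t + n • (2 * Real.pi)) y = hh t y := by
    intro y
    unfold hh
    rw [zsmul_eq_mul, Real.cos_add_int_mul_two_pi, Real.sin_add_int_mul_two_pi]
  rw [inF_iff] at h ⊢
  simp only [key]
  exact h

/-- the normals at a point, near one of them, form an interval of length less than `π` -/
theorem normals {P : Set ℂ} (hi : (interior P).Nonempty) {x : ℂ} {α s t : ℝ}
    (hα : InF P α x) (hs : InF P s x) (ht : InF P t x) (hs1 : α - Real.pi < s)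
    (ht1 : t < α + Real.pi) {u : ℝ} (hsu : s ≤ u) (hut : u ≤ t) : InF P u x := by
  have two : ∀ {p q v : ℝ}, InF P p x → InF P q x → q < p + Real.pi → p ≤ v → v ≤ q →
      InF P v x := by
    intro p q v hp hq hpq h1 h2
    rcases h1.eq_or_lt with h | h
    · rwa [← h]
    rcases h2.eq_or_lt with h' | h'
    · rwa [h']
    exact (between h h' hpq hp hq).1
  rcases lt_or_ge t (s + Real.pi) with h | h
  · exact two hs ht h hsu hut
  · exfalso
    rcases le_total (s + Real.pi) α with h' | h'
    · linarith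
    · exact no_opp hi hs (two hα ht ht1 h' h)

/-- **Illumination by three directions.** -/
theorem l10 : Pool.Agent.Zk84.M4.L10 := by
  classical
  intro P hP hc hi a b c hab hbc hca n1 n2 n3
  have hpi := Real.pi_pos
  let w1 : ℂ := ⟨Real.sin a, -Real.cos a⟩
  let w2 : ℂ := ⟨Real.sin c, -Real.cos c⟩
  let w3 : ℂ := ⟨-Real.sin b, Real.cos b⟩
  have e1 : ∀ t, hh t w1 = Real.sin (a - t) := by
    intro t
    rw [Real.sin_sub]
    unfold hh
    ring
  have e2 : ∀ t, hh t w2 = Real.sin (c - t) := by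
    intro t
    rw [Real.sin_sub]
    unfold hh
    ring
  have e3 : ∀ t, hh t w3 = Real.sin (t - b) := by
    intro t
    rw [Real.sin_sub]
    unfold hh
    ring
  refine ⟨{w1, w2, w3}, Finset.card_le_three, fun x hx => ?_⟩
  rcases lit_or hP hi (w := w1) hx with ⟨r, hr, h⟩ | ⟨α0, hα0, hα1⟩
  · exact ⟨w1, by simp, r, hr, h⟩
  rcases lit_or hP hi (w := w2) hx with ⟨r, hr, h⟩ | ⟨γ0, hγ0, hγ1⟩
  · exact ⟨w2, by simp, r, hr, h⟩
  rcases lit_or hP hi (w := w3) hx with ⟨r, hr, h⟩ | ⟨β0, hβ0, hβ1⟩
  · exact ⟨w3, by simp, r, hr, h⟩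
  exfalso
  rw [e1] at hα1
  rw [e2] at hγ1
  rw [e3] at hβ1
  have h2pi : (0 : ℝ) < 2 * Real.pi := by linarith
  -- the representatives
  obtain ⟨m, ⟨hm1, hm2⟩, -⟩ := existsUnique_add_zsmul_mem_Ioc h2pi α0 (a - 2 * Real.pi)
  set α : ℝ := α0 + m • (2 * Real.pi) with hα
  have hα' : InF P α x := inF_zmul m hα0
  have sα : 0 ≤ Real.sin (a - α) := by
    have : a - α = a - α0 - m * (2 * Real.pi) := by rw [hα, zsmul_eq_mul]; ring
    rw [this, Real.sin_sub_int_mul_two_pi]
    exact hα1
  have hαa : α ≤ a := by linarith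
  have hαπ : a - Real.pi ≤ α := by
    by_contra hlt
    push Not at hlt
    have := Real.sin_neg_of_neg_of_neg_pi_lt (x := a - α - 2 * Real.pi) (by linarith)
      (by linarith)
    rw [Real.sin_sub_two_pi] at this
    linarith
  obtain ⟨m', ⟨hm3, hm4⟩, -⟩ := existsUnique_add_zsmul_mem_Ioc h2pi β0 (α - Real.pi)
  set β : ℝ := β0 + m' • (2 * Real.pi) with hβ
  have hβ' : InF P β x := inF_zmul m' hβ0
  have sβ : 0 ≤ Real.sin (β - b) := by
    have : β - b = β0 - b + m' * (2 * Real.pi) := by rw [hβ, zsmul_eq_mul]; ring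
    rw [this, Real.sin_add_int_mul_two_pi]
    exact hβ1
  obtain ⟨m'', ⟨hm5, hm6⟩, -⟩ := existsUnique_add_zsmul_mem_Ioc h2pi γ0 (α - Real.pi)
  set γ : ℝ := γ0 + m'' • (2 * Real.pi) with hγ
  have hγ' : InF P γ x := inF_zmul m'' hγ0
  have sγ : 0 ≤ Real.sin (c - γ) := by
    have : c - γ = c - γ0 - m'' * (2 * Real.pi) := by rw [hγ, zsmul_eq_mul]; ring
    rw [this, Real.sin_sub_int_mul_two_pi]
    exact hγ1
  have hβ2 : β < α + Real.pi := by
    refine lt_of_le_of_ne (by linarith) fun h => ?_
    rw [h] at hβ'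
    exact no_opp hi hα' hβ'
  have hγ2 : γ < α + Real.pi := by
    refine lt_of_le_of_ne (by linarith) fun h => ?_
    rw [h] at hγ'
    exact no_opp hi hα' hγ'
  have αlow : α - Real.pi < α := by linarith
  have αup : α < α + Real.pi := by linarith
  -- the cases
  rcases le_or_gt b β with hb | hb
  · exact n1 ⟨x, normals hi hα' hα' hβ' αlow hβ2 hαa (hab.le.trans hb),
      normals hi hα' hα' hβ' αlow hβ2 (hαa.trans hab.le) hb⟩
  have hb2 : β ≤ b - Real.pi := by
    by_contra hlt
    push Not at hlt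
    have := Real.sin_neg_of_neg_of_neg_pi_lt (x := β - b) (by linarith) (by linarith)
    linarith
  rcases le_or_gt (c - Real.pi) γ with hg | hg
  · have k1 : InF P (b - Real.pi) x := normals hi hα' hβ' hγ' hm3 hγ2 hb2 (by linarith)
    have k2 : InF P (c - Real.pi) x := normals hi hα' hβ' hγ' hm3 hγ2 (by linarith) hg
    refine n3 ⟨x, ?_, ?_⟩
    · have : b + Real.pi = b - Real.pi + 2 * Real.pi := by ring
      rw [this]
      exact inF_two_pi.2 k1
    · have : c + Real.pi = c - Real.pi + 2 * Real.pi := by ring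
      rw [this]
      exact inF_two_pi.2 k2
  have hg2 : γ ≤ c - 2 * Real.pi := by
    by_contra hlt
    push Not at hlt
    have := Real.sin_neg_of_neg_of_neg_pi_lt (x := c - γ - 2 * Real.pi) (by linarith)
      (by linarith)
    rw [Real.sin_sub_two_pi] at this
    linarith
  have k1 : InF P (c - 2 * Real.pi) x := normals hi hα' hγ' hα' hm5 αup hg2 (by linarith)
  have k2 : InF P (a - Real.pi) x := normals hi hα' hγ' hα' hm5 αup (by linarith) hαπ
  refine n2 ⟨x, ?_, ?_⟩
  · have : c = c - 2 * Real.pi + 2 * Real.pi := by ring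
    rw [this]
    exact inF_two_pi.2 k1
  · have : a + Real.pi = a - Real.pi + 2 * Real.pi := by ring
    rw [this]
    exact inF_two_pi.2 k2

end Pool.Agent.Zk76.M4L13
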