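import Pool.Agent.Zk84.M4.Stm5

/-!
The parallelogram (module L13 of M4).
-/

set_option autoImplicit false

open Set Topology

namespace Pool.Agent.Zk76.M4L13

open Pool.Agent.Zk84.M4 (InF Lk GoodG L13)

/-- the scalar product with `(cos t, sin t)` -/
noncomputable def hh (t : ℝ) (x : ℂ) : ℝ := Real.cos t * x.re + Real.sin t * x.im

theorem inF_iff {P : Set ℂ} {t : ℝ} {x : ℂ} : InF P t x ↔ x ∈ P ∧ ∀ y ∈ P, hh t y ≤ hh t x :=
  Iff.rfl

theorem hh_pi (t : ℝ) (x : ℂ) : hh (t + Real.pi) x = -hh t x := by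
  unfold hh
  rw [Real.cos_add_pi, Real.sin_add_pi]
  ring

theorem hh_two_pi (t : ℝ) (x : ℂ) : hh (t + 2 * Real.pi) x = hh t x := by
  unfold hh
  rw [Real.cos_add_two_pi, Real.sin_add_two_pi]

theorem inF_two_pi {P : Set ℂ} {t : ℝ} {x : ℂ} : InF P (t + 2 * Real.pi) x ↔ InF P t x := by
  rw [inF_iff, inF_iff]
  simp only [hh_two_pi]

theorem hh_comb (a b t : ℝ) (x : ℂ) :
    Real.sin (b - a) * hh t x = Real.sin (b - t) * hh a x + Real.sin (t - a) * hh b x := by
  unfold hh
  rw [Real.sin_sub, Real.sin_sub, Real.sin_sub]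
  ring

theorem hh_inj {a b : ℝ} (h : Real.sin (b - a) ≠ 0) {x y : ℂ} (ha : hh a x = hh a y)
    (hb : hh b x = hh b y) : x = y := by
  unfold hh at ha hb
  rw [Real.sin_sub] at h
  have h1 : (Real.sin b * Real.cos a - Real.cos b * Real.sin a) * (x.re - y.re) = 0 := by
    linear_combination Real.sin b * ha - Real.sin a * hb
  have h2 : (Real.sin b * Real.cos a - Real.cos b * Real.sin a) * (x.im - y.im) = 0 := by
    linear_combination Real.cos a * hb - Real.cos b * ha
  have h3 := (mul_eq_zero.1 h1).resolve_left h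
  have h4 := (mul_eq_zero.1 h2).resolve_left h
  exact Complex.ext (by linarith) (by linarith)

section

variable {P : Set ℂ}

/-- opposite faces are disjoint -/
theorem no_opp (hi : (interior P).Nonempty) {a : ℝ} {x : ℂ} (h1 : InF P a x)
    (h2 : InF P (a + Real.pi) x) : False := by
  obtain ⟨z, hz⟩ := hi
  obtain ⟨r, hr, hball⟩ := Metric.mem_nhds_iff.1 (mem_interior_iff_mem_nhds.1 hz)
  have key : ∀ y ∈ P, hh a y = hh a x := by
    intro y hy
    have e1 := h1.2 y hy
    have e2 := (inF_iff.1 h2).2 y hy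
    rw [hh_pi, hh_pi] at e2
    exact le_antisymm e1 (by linarith)
  set w : ℂ := z + ((r / 2 : ℝ) : ℂ) * ⟨Real.cos a, Real.sin a⟩ with hw
  have hn : ‖(⟨Real.cos a, Real.sin a⟩ : ℂ)‖ = 1 := by
    rw [Complex.norm_def, Complex.normSq_mk]
    have : Real.cos a * Real.cos a + Real.sin a * Real.sin a = 1 := by
      nlinarith [Real.sin_sq_add_cos_sq a]
    rw [this, Real.sqrt_one]
  have hwP : w ∈ P := by
    refine hball ?_
    rw [Metric.mem_ball, dist_eq_norm, hw, add_sub_cancel_left, norm_mul, hn, Complex.norm_real,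
      Real.norm_of_nonneg (by linarith)]
    linarith
  have hzP : z ∈ P := interior_subset hz
  have e3 := key w hwP
  have e4 := key z hzP
  have e5 : hh a w = hh a z + r / 2 := by
    rw [hw]
    unfold hh
    simp only [Complex.add_re, Complex.add_im, Complex.mul_re, Complex.mul_im, Complex.ofReal_re,
      Complex.ofReal_im]
    nlinarith [Real.sin_sq_add_cos_sq a]
  linarith

/-- the faces between two faces which meet are the common point -/
theorem between {a b t : ℝ} {p : ℂ} (hat : a < t) (htb : t < b) (hba : b < a + Real.pi)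
    (ha : InF P a p) (hb : InF P b p) : InF P t p ∧ ∀ q, InF P t q → q = p := by
  have s1 : 0 < Real.sin (b - a) := Real.sin_pos_of_pos_of_lt_pi (by linarith) (by linarith)
  have s2 : 0 < Real.sin (b - t) := Real.sin_pos_of_pos_of_lt_pi (by linarith) (by linarith)
  have s3 : 0 < Real.sin (t - a) := Real.sin_pos_of_pos_of_lt_pi (by linarith) (by linarith)
  rw [inF_iff] at ha hb
  refine ⟨inF_iff.2 ⟨ha.1, fun y hy => ?_⟩, fun q hq => ?_⟩
  · have e1 := hh_comb a b t y
    have e2 := hh_comb a b t p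
    have e3 := mul_le_mul_of_nonneg_left (ha.2 y hy) s2.le
    have e4 := mul_le_mul_of_nonneg_left (hb.2 y hy) s3.le
    exact le_of_mul_le_mul_left (by linarith) s1
  · rw [inF_iff] at hq
    have e1 := hh_comb a b t q
    have e2 := hh_comb a b t p
    have e3 := mul_le_mul_of_nonneg_left (ha.2 q hq.1) s2.le
    have e4 := mul_le_mul_of_nonneg_left (hb.2 q hq.1) s3.le
    have e5 := mul_le_mul_of_nonneg_left (hq.2 p ha.1) s1.le
    have e6 : Real.sin (b - t) * hh a q = Real.sin (b - t) * hh a p := by linarith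
    have e7 : Real.sin (t - a) * hh b q = Real.sin (t - a) * hh b p := by linarith
    exact hh_inj s1.ne' (mul_left_cancel₀ s2.ne' e6) (mul_left_cancel₀ s3.ne' e7)

/-- the directions whose faces meet a given face form a closed set -/
theorem closed_lk (hc : IsCompact P) (a : ℝ) : IsClosed {t : ℝ | Lk P a t} := by
  have : CompactSpace P := isCompact_iff_compactSpace.1 hc
  have hcl : IsClosed {q : ℝ × P | InF P a q.2 ∧ InF P q.1 q.2} := by
    have e : {q : ℝ × P | InF P a q.2 ∧ InF P q.1 q.2} =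
        ⋂ y : P, ({q : ℝ × P | hh a y ≤ hh a q.2} ∩ {q : ℝ × P | hh q.1 y ≤ hh q.1 q.2}) := by
      ext q
      simp only [mem_ofPred_eq, mem_iInter, mem_inter_iff]
      constructor
      · rintro ⟨h1, h2⟩ y
        exact ⟨h1.2 y y.2, h2.2 y y.2⟩
      · intro h
        exact ⟨⟨q.2.2, fun y hy => (h ⟨y, hy⟩).1⟩, ⟨q.2.2, fun y hy => (h ⟨y, hy⟩).2⟩⟩
    rw [e]
    refine isClosed_iInter fun y => IsClosed.inter ?_ ?_
    · refine isClosed_le (by fun_prop) ?_
      unfold hh
      fun_prop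
    · refine isClosed_le ?_ ?_
      · unfold hh
        fun_prop
      · unfold hh
        fun_prop
  have h2 := isClosedMap_fst_of_compactSpace _ hcl
  have e2 : Prod.fst '' {q : ℝ × P | InF P a q.2 ∧ InF P q.1 q.2} = {t : ℝ | Lk P a t} := by
    ext t
    constructor
    · rintro ⟨q, ⟨h1, h3⟩, rfl⟩
      exact ⟨q.2, h1, h3⟩
    · rintro ⟨x, h1, h3⟩
      exact ⟨(t, ⟨x, h1.1⟩), ⟨h1, h3⟩, rfl⟩
  rwa [e2] at h2

/-- the step from an interval on which `g` is constant -/
theorem step (hc : IsCompact P) {g : ℝ → ℝ} (hg : GoodG P g) {C E : ℝ} (hE : E < C)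
    (h : ∀ z, E < z → z < C → g z = C) :
    C < g (C + Real.pi) - Real.pi ∧ g (C + Real.pi) - Real.pi < C + Real.pi ∧
      Lk P (g (C + Real.pi) - Real.pi) (C + Real.pi) ∧ Lk P (C + Real.pi) (g (C + Real.pi)) := by
  obtain ⟨g1, g2, g3, g4⟩ := hg
  obtain ⟨h1, h2, h3⟩ := g1 (C + Real.pi)
  set c1 := g (C + Real.pi) - Real.pi with hc1
  refine ⟨by linarith, by linarith, ?_, h3⟩
  have hcl := closed_lk hc c1
  have hm : max E (c1 - Real.pi) < C := max_lt hE (by linarith)
  have hmem : C + Real.pi ∈ closure {t : ℝ | Lk P c1 t} := by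
    rw [Metric.mem_closure_iff]
    intro ε hε
    obtain ⟨z, hz1, hz2⟩ := exists_between (max_lt hm (by linarith : C - ε < C))
    have hz3 : E < z := (le_max_left _ _).trans_lt ((le_max_left _ _).trans_lt hz1)
    have hz4 : c1 - Real.pi < z := (le_max_right _ _).trans_lt ((le_max_left _ _).trans_lt hz1)
    have hz5 : C - ε < z := (le_max_right _ _).trans_lt hz1
    refine ⟨z + Real.pi, ?_, ?_⟩
    · have h4 := g4 z
      rw [h z hz3 hz2, ← hc1] at h4
      rcases h4 with h4 | h4
      · linarith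
      · exact h4
    · rw [Real.dist_eq, abs_lt]
      constructor <;> linarith
  rw [hcl.closure_eq] at hmem
  exact hmem

end

/-- **The parallelogram.** -/
theorem l13 : L13 := by
  intro P hP hc hi ⟨g, hg⟩
  have hpi := Real.pi_pos
  obtain ⟨g1, g2, g3, g4⟩ := id hg
  -- `g` is constant on `(0, c)`
  obtain ⟨c0, cpi, p, hp0, hpc⟩ := g1 0
  set c := g 0 with hcdef
  have ha : ∀ z, 0 < z → z < c → g z = c := by
    intro z hz0 hzc
    obtain ⟨hpz, hun⟩ := between hz0 hzc cpi hp0 hpc
    obtain ⟨-, w1, q, hq1, hq2⟩ := g1 z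
    have h1 : c ≤ g z := by
      by_contra hlt
      push Not at hlt
      exact g2 z c hlt (by linarith) ⟨p, hpz, hpc⟩
    by_contra hne
    have h2 : c < g z := lt_of_le_of_ne h1 (Ne.symm hne)
    have h3 : q = p := hun q hq1
    subst h3
    rcases le_or_gt (g z) (0 + Real.pi) with h4 | h4
    · exact g2 0 (g z) h2 h4 ⟨q, hp0, hq2⟩
    · have h5 := (between (t := 0 + Real.pi) (by linarith) h4 w1 hq1 hq2).1
      exact no_opp hi hp0 h5
  -- first step
  obtain ⟨s1, s2, ⟨P1, hP1a, hP1b⟩, P2, hP2a, hP2b⟩ := step hc hg c0 ha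
  set c1 := g (c + Real.pi) - Real.pi with hc1
  have hP2c : InF P (c1 + Real.pi) P2 := by
    have : c1 + Real.pi = g (c + Real.pi) := by rw [hc1]; ring
    rw [this]
    exact hP2b
  have hP12 : P1 ≠ P2 := by
    rintro rfl
    exact no_opp hi hP1a hP2c
  have hb : ∀ z, c1 < z → z < c + Real.pi → g z = c + Real.pi := by
    intro z hz1 hz2
    obtain ⟨hpz, hun⟩ := between hz1 hz2 (by linarith) hP1a hP1b
    obtain ⟨-, w1, q, hq1, hq2⟩ := g1 z
    have h1 : c + Real.pi ≤ g z := by
      by_contra hlt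
      push Not at hlt
      exact g2 z (c + Real.pi) hlt (by linarith) ⟨P1, hpz, hP1b⟩
    by_contra hne
    have h2 : c + Real.pi < g z := lt_of_le_of_ne h1 (Ne.symm hne)
    have h3 := (between hz2 h2 w1 hq1 hq2).2
    exact hP12 ((h3 P1 hP1b).trans (h3 P2 hP2a).symm)
  -- second step
  obtain ⟨t1, t2, ⟨P3, hP3a, hP3b⟩, P4, hP4a, hP4b⟩ := step hc hg s2 hb
  set d := g c with hd
  have e0 : c + Real.pi + Real.pi = c + 2 * Real.pi := by ring
  have e1 : g (c + Real.pi + Real.pi) = d + 2 * Real.pi := by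
    rw [e0, g3]
  rw [e1] at t1 t2 hP3a hP4b
  rw [e0] at hP3b hP4a
  have e2 : d + 2 * Real.pi - Real.pi = d + Real.pi := by ring
  rw [e2] at t1 t2 hP3a
  rw [inF_two_pi] at hP4b hP4a
  have hP3c := inF_two_pi.1 hP3b
  have hcd : c < d := by linarith
  have hdc : d < c + Real.pi := by linarith
  -- `d = c1`
  have hd1 : d ≤ c1 := by
    by_contra hlt
    push Not at hlt
    obtain ⟨t, ht1, ht2⟩ := exists_between hlt
    obtain ⟨k1, -⟩ := between (t := t) (by linarith) ht2 hdc hP4a hP4b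
    have k3 := (between (t := t) ht1 (by linarith) (by linarith) hP1a hP1b).2 P4 k1
    rw [k3] at hP4a
    exact no_opp hi hP4a hP1b
  have hd2 : c1 ≤ d := by
    by_contra hlt
    push Not at hlt
    obtain ⟨t, ht1, ht2⟩ := exists_between (show d + Real.pi < c1 + Real.pi by linarith)
    obtain ⟨k1, -⟩ := between (t := t) ht1 (by linarith) (by linarith) hP3a hP3b
    have k3 := (between (t := t) (by linarith) ht2 (by linarith) hP2a hP2c).2 P3 k1
    rw [k3] at hP3c
    exact no_opp hi hP3c hP2a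
  have hdd : d = c1 := le_antisymm hd1 hd2
  rw [← hdd] at hP1a hP2c
  -- coordinates
  have hs : 0 < Real.sin (d - c) := Real.sin_pos_of_pos_of_lt_pi (by linarith) (by linarith)
  rw [inF_iff] at hP1a hP1b hP2a hP2c hP3a hP3c hP4a hP4b
  have max_c : ∀ y ∈ P, hh c y ≤ hh c P4 := hP4a.2
  have max_d : ∀ y ∈ P, hh d y ≤ hh d P4 := hP4b.2
  have min_c : ∀ y ∈ P, hh c P1 ≤ hh c y := by
    intro y hy
    have := hP1b.2 y hy
    rw [hh_pi, hh_pi] at this
    linarith
  have min_d : ∀ y ∈ P, hh d P3 ≤ hh d y := by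
    intro y hy
    have := hP3a.2 y hy
    rw [hh_pi, hh_pi] at this
    linarith
  have m1 : hh c P3 = hh c P4 := le_antisymm (max_c _ hP3c.1) (hP3c.2 _ hP4a.1)
  have m2 : hh d P1 = hh d P4 := le_antisymm (max_d _ hP1a.1) (hP1a.2 _ hP4a.1)
  have m3 : hh c P2 = hh c P1 := by
    refine le_antisymm ?_ (min_c _ hP2a.1)
    have := hP2a.2 P1 hP1a.1
    rw [hh_pi, hh_pi] at this
    linarith
  have m4 : hh d P2 = hh d P3 := by
    refine le_antisymm ?_ (min_d _ hP2a.1)
    have := hP2c.2 P3 hP3a.1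
    rw [hh_pi, hh_pi] at this
    linarith
  have lt_c : hh c P1 < hh c P4 := by
    refine lt_of_le_of_ne (min_c _ hP4a.1) fun h => ?_
    refine no_opp hi (a := c) (x := P1) (inF_iff.2 ⟨hP1a.1, fun y hy => ?_⟩) (inF_iff.2 hP1b)
    rw [h]
    exact max_c y hy
  have lt_d : hh d P3 < hh d P4 := by
    refine lt_of_le_of_ne (min_d _ hP4a.1) fun h => ?_
    refine no_opp hi (a := d) (x := P3) (inF_iff.2 ⟨hP3a.1, fun y hy => ?_⟩) (inF_iff.2 hP3a)
    rw [h]
    exact max_d y hy
  have hlin : ∀ (t : ℝ) (x y z : ℂ) (s r : ℝ),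
      hh t ((1 / 2 : ℝ) • (x + y) + s • ((1 / 2 : ℝ) • (z - x)) + r • ((1 / 2 : ℝ) • (z - y))) =
        (1 / 2) * (hh t x + hh t y) + s * ((1 / 2) * (hh t z - hh t x)) +
          r * ((1 / 2) * (hh t z - hh t y)) := by
    intro t x y z s r
    unfold hh
    simp only [Complex.add_re, Complex.add_im, Complex.sub_re, Complex.sub_im, Complex.smul_re,
      Complex.smul_im, smul_eq_mul]
    ring
  have hpar : P2 = P1 + P3 - P4 := by
    refine hh_inj hs.ne' ?_ ?_
    · have : hh c (P1 + P3 - P4) = hh c P1 + hh c P3 - hh c P4 := by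
        unfold hh
        simp only [Complex.add_re, Complex.add_im, Complex.sub_re, Complex.sub_im]
        ring
      rw [this]
      linarith
    · have : hh d (P1 + P3 - P4) = hh d P1 + hh d P3 - hh d P4 := by
        unfold hh
        simp only [Complex.add_re, Complex.add_im, Complex.sub_re, Complex.sub_im]
        ring
      rw [this]
      linarith
  refine ⟨(1 / 2 : ℝ) • (P1 + P3), (1 / 2 : ℝ) • (P4 - P1), (1 / 2 : ℝ) • (P4 - P3), ?_⟩
  ext x
  constructor
  · intro hx
    have w1 : 0 < hh c P4 - hh c P1 := by linarith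
    have w2 : 0 < hh d P4 - hh d P3 := by linarith
    refine ⟨(2 * hh c x - hh c P4 - hh c P1) / (hh c P4 - hh c P1),
      (2 * hh d x - hh d P4 - hh d P3) / (hh d P4 - hh d P3), ?_, ?_, ?_⟩
    · rw [abs_le]
      have k1 := max_c x hx
      have k2 := min_c x hx
      constructor
      · rw [le_div_iff₀ w1]; linarith
      · rw [div_le_iff₀ w1]; linarith
    · rw [abs_le]
      have k1 := max_d x hx
      have k2 := min_d x hx
      constructor
      · rw [le_div_iff₀ w2]; linarith
      · rw [div_le_iff₀ w2]; linarith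
    · refine hh_inj hs.ne' ?_ ?_
      · rw [hlin, m1]
        field_simp
        ring
      · rw [hlin, m2]
        field_simp
        ring
  · rintro ⟨s, r, hs1, hr1, rfl⟩
    rw [abs_le] at hs1 hr1
    have k : (1 / 2 : ℝ) • (P1 + P3) + s • ((1 / 2 : ℝ) • (P4 - P1)) +
        r • ((1 / 2 : ℝ) • (P4 - P3)) =
        ((1 + r) / 2) • (((1 + s) / 2) • P4 + ((1 - s) / 2) • P1) +
          ((1 - r) / 2) • (((1 + s) / 2) • P3 + ((1 - s) / 2) • P2) := by
      rw [hpar]
      simp only [Complex.real_smul]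
      push_cast
      ring
    rw [k]
    refine hP ?_ ?_ (by linarith) (by linarith) (by ring)
    · exact hP hP4a.1 hP1a.1 (by linarith) (by linarith) (by ring)
    · exact hP hP3a.1 hP2a.1 (by linarith) (by linarith) (by ring)

end Pool.Agent.Zk76.M4L13
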