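import Pool.Agent.Zk84.M4.Stm
import Pool.Agent.Zk76.M3W5

/-!
Bodies of `ℂ × ℂ` which are invariant under the rotations of the second factor: twelve translates
(module W5 of M4).
-/

set_option autoImplicit false
set_option maxHeartbeats 1000000

namespace Pool.Agent.Zk76.M4W5

open Complex Set Filter Topology Pool.Agent.Zk76.Wt
open Pool.Agent.H843R3.Had2 (Cn Co unif)
open Pool.Agent.Zk76.M3W5 (three_dirs)

section

variable {K : Set (ℂ × ℂ)}

theorem ax_mem (hK : Convex ℝ K)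
    (hinv : ∀ (t : ℝ) (x : ℂ × ℂ), x ∈ K → (x.1, Complex.exp ((t : ℂ) * Complex.I) * x.2) ∈ K) :
    ∀ x ∈ K, (x.1, (0 : ℂ)) ∈ K := by
  intro x hx
  have h0 := hinv Real.pi x hx
  rw [Complex.exp_pi_mul_I] at h0
  have hneg : (x.1, -x.2) ∈ K := by simpa using h0
  have h1 := hK hx hneg (a := 1 / 2) (b := 1 / 2) (by norm_num) (by norm_num) (by norm_num)
  have h2 : (1 / 2 : ℝ) • x + (1 / 2 : ℝ) • ((x.1, -x.2) : ℂ × ℂ) = (x.1, 0) := by
    ext1
    · simp only [Prod.fst_add, Prod.smul_fst]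
      rw [← add_smul]; norm_num
    · simp
  rwa [h2] at h1

theorem disc_mem (hK : Convex ℝ K)
    (hinv : ∀ (t : ℝ) (x : ℂ × ℂ), x ∈ K → (x.1, Complex.exp ((t : ℂ) * Complex.I) * x.2) ∈ K) :
    ∀ x ∈ K, ∀ w : ℂ, ‖w‖ ≤ ‖x.2‖ → (x.1, w) ∈ K := by
  intro x hx w hw
  have hax := ax_mem hK hinv
  rcases (norm_nonneg x.2).eq_or_lt with h0 | h0
  · have h1 : w = 0 := norm_le_zero_iff.1 (by rw [h0]; exact hw)
    rw [h1]
    exact hax x hx
  · have h1 := hinv (w / x.2).arg x hx
    have h2 := hK h1 (hax x hx) (a := ‖w‖ / ‖x.2‖) (b := 1 - ‖w‖ / ‖x.2‖) (by positivity)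
      (by rw [sub_nonneg, div_le_one h0]; exact hw) (by ring)
    have h3 : (‖w‖ / ‖x.2‖) • ((x.1, Complex.exp (((w / x.2).arg : ℂ) * I) * x.2) : ℂ × ℂ) +
        (1 - ‖w‖ / ‖x.2‖) • ((x.1, 0) : ℂ × ℂ) = (x.1, w) := by
      have hx2 : x.2 ≠ 0 := norm_pos_iff.1 h0
      ext1
      · simp only [Prod.fst_add, Prod.smul_fst]
        rw [← add_smul]; simp
      · simp only [Prod.snd_add, Prod.smul_snd, smul_zero, add_zero, Complex.real_smul]
        have h4 := Complex.norm_mul_exp_arg_mul_I (w / x.2)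
        rw [norm_div] at h4
        rw [← mul_assoc, h4, div_mul_cancel₀ _ hx2]
    rwa [h3] at h2

/-- the section by the plane of the fixed points -/
def Base (K : Set (ℂ × ℂ)) : Set ℂ := {z | ((z, (0 : ℂ)) : ℂ × ℂ) ∈ K}

theorem base_convex (hK : Convex ℝ K) : Convex ℝ (Base K) := by
  intro a ha b hb s t hs ht hst
  have h1 := hK ha hb hs ht hst
  have h2 : s • ((a, (0 : ℂ)) : ℂ × ℂ) + t • ((b, (0 : ℂ)) : ℂ × ℂ) = (s • a + t • b, 0) := by
    ext1
    · rfl
    · simp
  rw [h2] at h1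
  exact h1

theorem base_compact (hK : Convex ℝ K) (hc : IsCompact K)
    (hinv : ∀ (t : ℝ) (x : ℂ × ℂ), x ∈ K → (x.1, Complex.exp ((t : ℂ) * Complex.I) * x.2) ∈ K) :
    IsCompact (Base K) := by
  have h1 : Base K = (fun x : ℂ × ℂ => x.1) '' K := by
    ext z
    constructor
    · intro hz
      exact ⟨(z, 0), hz, rfl⟩
    · rintro ⟨x, hx, rfl⟩
      exact ax_mem hK hinv x hx
  rw [h1]
  exact hc.image continuous_fst

theorem base_lift (hK : Convex ℝ K) (hi : (interior K).Nonempty)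
    (hinv : ∀ (t : ℝ) (x : ℂ × ℂ), x ∈ K → (x.1, Complex.exp ((t : ℂ) * Complex.I) * x.2) ∈ K) :
    (interior (Base K)).Nonempty ∧ ∀ z ∈ interior (Base K), ((z, (0 : ℂ)) : ℂ × ℂ) ∈ interior K := by
  obtain ⟨p, hp⟩ := hi
  have hneg : ∀ x ∈ K, (x.1, -x.2) ∈ K := by
    intro x hx
    have h1 := hinv Real.pi x hx
    rw [Complex.exp_pi_mul_I] at h1
    simpa using h1
  have hpi : ((p.1, (0 : ℂ)) : ℂ × ℂ) ∈ interior K := by
    have h1 : ((p.1, -p.2) : ℂ × ℂ) ∈ interior K := by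
      let g : (ℂ × ℂ) ≃ₜ (ℂ × ℂ) := (Homeomorph.refl ℂ).prodCongr (Homeomorph.neg ℂ)
      have h2 : K ⊆ g ⁻¹' K := fun z hz => hneg z hz
      have h3 : interior K ⊆ g ⁻¹' (interior K) := by
        rw [g.preimage_interior]
        exact interior_mono h2
      exact h3 hp
    have h2 := hK.interior hp h1 (a := 1 / 2) (b := 1 / 2) (by norm_num) (by norm_num)
      (by norm_num)
    have h3 : (1 / 2 : ℝ) • p + (1 / 2 : ℝ) • ((p.1, -p.2) : ℂ × ℂ) = (p.1, 0) := by
      ext1
      · simp only [Prod.fst_add, Prod.smul_fst]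
        rw [← add_smul]; norm_num
      · simp
    rwa [h3] at h2
  have hcontF : Continuous (fun z : ℂ => ((z, (0 : ℂ)) : ℂ × ℂ)) := by fun_prop
  have hFint : p.1 ∈ interior (Base K) := by
    have h1 : (fun z : ℂ => ((z, (0 : ℂ)) : ℂ × ℂ)) ⁻¹' (interior K) ⊆ interior (Base K) :=
      interior_maximal (preimage_mono interior_subset) (isOpen_interior.preimage hcontF)
    exact h1 hpi
  refine ⟨⟨_, hFint⟩, ?_⟩
  intro z hz
  obtain ⟨ε, hε, h1⟩ := Pool.Agent.H843R3.Had2.Co.of_interior hz (z - p.1)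
  have h2 : ((z + ε • (z - p.1), (0 : ℂ)) : ℂ × ℂ) ∈ K := by
    have h2' : z + ε • (z - p.1) ∈ Base K := interior_subset h1
    exact h2'
  have h3 := hK.combo_self_interior_mem_interior h2 hpi (a := 1 / (1 + ε))
    (b := ε / (1 + ε)) (by positivity) (by positivity) (by field_simp)
  have h4 : (1 / (1 + ε)) • ((z + ε • (z - p.1), (0 : ℂ)) : ℂ × ℂ) +
      (ε / (1 + ε)) • ((p.1, (0 : ℂ)) : ℂ × ℂ) = (z, 0) := by
    have h5 : (1 + ε : ℝ) ≠ 0 := by positivity
    ext1
    · simp only [Prod.fst_add, Prod.smul_fst]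
      have e1 : z + ε • (z - p.1) = (1 + ε) • z - ε • p.1 := by module
      rw [e1, smul_sub, smul_smul, smul_smul]
      have e2 : 1 / (1 + ε) * (1 + ε) = 1 := by field_simp
      have e3 : 1 / (1 + ε) * ε = ε / (1 + ε) := by ring
      rw [e2, e3, one_smul]
      abel
    · simp
  rwa [h4] at h3

/-- the fibre over a point is a proper disc -/
def Pos (K : Set (ℂ × ℂ)) (z : ℂ) : Prop := ∃ y : ℂ, y ≠ 0 ∧ ((z, y) : ℂ × ℂ) ∈ K

theorem pos_segment (hK : Convex ℝ K) {z w : ℂ} (hz : Pos K z) (hw : Pos K w)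
    (hwb : w ∈ Base K) {s t : ℝ} (hs : 0 ≤ s) (ht : 0 ≤ t) (hst : s + t = 1) :
    Pos K (s • z + t • w) := by
  obtain ⟨y, hy, hzy⟩ := hz
  obtain ⟨v, hv, hwv⟩ := hw
  rcases hs.eq_or_lt with h0 | h0
  · refine ⟨v, hv, ?_⟩
    rw [← h0] at hst
    rw [← h0, zero_smul, zero_add, (by linarith : t = 1), one_smul]
    exact hwv
  · refine ⟨s • y, smul_ne_zero h0.ne' hy, ?_⟩
    have h1 := hK hzy hwb hs ht hst
    have h2 : s • ((z, y) : ℂ × ℂ) + t • ((w, (0 : ℂ)) : ℂ × ℂ) = (s • z + t • w, s • y) := by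
      ext1
      · rfl
      · simp
    rwa [h2] at h1

/-- the main lemma -/
theorem cov_of (hK : Convex ℝ K) (hc : IsCompact K) (hi : (interior K).Nonempty)
    (hinv : ∀ (t : ℝ) (x : ℂ × ℂ), x ∈ K → (x.1, Complex.exp ((t : ℂ) * Complex.I) * x.2) ∈ K)
    (S Z : Finset ℂ) (n : ℕ) (hn : Z.card + 3 * S.card ≤ n)
    (H : ∀ x ∈ K, (∃ w ∈ Z, Co K x ((w, 0) : ℂ × ℂ)) ∨
      ((∃ w ∈ S, Co (Base K) x.1 w) ∧ Pos K x.1)) : Cov n K := by
  classical
  have hdisc := disc_mem hK hinv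
  have hlift := (base_lift hK hi hinv).2
  obtain ⟨p, hp⟩ := hi
  -- the points which are not lit by `Z`
  set O : Set (ℂ × ℂ) := {x | ∃ w ∈ Z, Co K x ((w, 0) : ℂ × ℂ)} with hO
  have hOo : IsOpen O := by
    have h1 : O = ⋃ w ∈ Z, ⋃ ε : ℝ, ⋃ (_ : 0 < ε),
        (fun x : ℂ × ℂ => x + ε • ((w, 0) : ℂ × ℂ)) ⁻¹' interior K := by
      ext x
      simp only [hO, Co, mem_ofPred_eq, mem_iUnion, mem_preimage, exists_prop]
    rw [h1]
    refine isOpen_biUnion fun w _ => isOpen_iUnion fun ε => isOpen_iUnion fun _ => ?_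
    exact isOpen_interior.preimage (by fun_prop)
  have hK'c : IsCompact (K \ O) := hc.diff hOo
  have hTc : IsCompact ((fun x : ℂ × ℂ => x.1) '' (K \ O)) := hK'c.image continuous_fst
  obtain ⟨r, hr, hr1⟩ := unif (base_convex hK) hTc (by
    rintro z ⟨x, ⟨hx, -⟩, rfl⟩
    exact ax_mem hK hinv x hx) (fun w : S => (w : ℂ)) (by
    rintro z ⟨x, ⟨hx, hxO⟩, rfl⟩
    rcases H x hx with h | h
    · exact absurd h hxO
    · obtain ⟨⟨w, hw, h1⟩, -⟩ := h
      exact ⟨⟨w, hw⟩, h1⟩)
  obtain ⟨R, hR⟩ := hc.isBounded.exists_norm_le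
  have hR2 : ∀ x ∈ K, ‖x.2‖ ≤ R := fun x hx => (norm_snd_le x).trans (hR x hx)
  have hR0 : 0 ≤ R := (norm_nonneg _).trans (hR _ (interior_subset hp))
  set N : ℝ := 2 * (R + 1) / r with hN
  have hNr : r * N = 2 * (R + 1) := by rw [hN]; field_simp
  set V : Finset ℂ := {2, ⟨-1, 2⟩, ⟨-1, -2⟩} with hV
  have hVc : V.card ≤ 3 := Finset.card_le_three
  set D : Finset (ℂ × ℂ) := Z.image (fun w => ((-w, 0) : ℂ × ℂ)) ∪
    (S ×ˢ V).image (fun wv => ((-wv.1, (N : ℂ) * wv.2) : ℂ × ℂ)) with hD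
  have hDc : D.card ≤ n := by
    refine (Finset.card_union_le _ _).trans ?_
    have h1 : (Z.image (fun w => ((-w, 0) : ℂ × ℂ))).card ≤ Z.card := Finset.card_image_le
    have h2 : ((S ×ˢ V).image (fun wv => ((-wv.1, (N : ℂ) * wv.2) : ℂ × ℂ))).card ≤
        3 * S.card := by
      refine Finset.card_image_le.trans ?_
      rw [Finset.card_product]
      calc S.card * V.card ≤ S.card * 3 := Nat.mul_le_mul_left _ hVc
        _ = 3 * S.card := by ring
    omega
  obtain ⟨T, hT, hcov⟩ := Pool.Agent.H765R3.Had.cover_of_dirs hK hc D (by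
    intro x hx
    by_cases hxO : x ∈ O
    · obtain ⟨w, hw, ε, hε, h1⟩ := hxO
      refine ⟨(-w, 0), Finset.mem_union_left _ (Finset.mem_image_of_mem _ hw), ε, hε, ?_⟩
      have h2 : x - ε • ((-w, 0) : ℂ × ℂ) = x + ε • ((w, 0) : ℂ × ℂ) := by
        ext1
        · simp
        · simp
      rw [h2]
      exact h1
    · have hPos : Pos K x.1 := by
        rcases H x hx with h | h
        · exact absurd h hxO
        · exact h.2
      obtain ⟨⟨w, hw⟩, hw1⟩ := hr1 x.1 ⟨x, ⟨hx, hxO⟩, rfl⟩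
      have hy := hlift _ hw1
      -- a direction of the second factor
      have hvu : ∃ v ∈ V, Cn K x ((0 : ℂ), x.2 - ((r * N : ℝ) : ℂ) * v) := by
        by_cases hx2 : x.2 = 0
        · obtain ⟨y, hy0, hy1⟩ := hPos
          refine ⟨2, by simp [hV], ?_⟩
          set u : ℂ := x.2 - ((r * N : ℝ) : ℂ) * 2 with hu
          have hy0' : 0 < ‖y‖ := norm_pos_iff.2 hy0
          refine ⟨‖y‖ / (‖u‖ + 1), by positivity, ?_⟩
          have h1 : x + (‖y‖ / (‖u‖ + 1)) • (((0 : ℂ), u) : ℂ × ℂ) =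
              (x.1, (‖y‖ / (‖u‖ + 1)) • u) := by
            ext1
            · simp
            · simp [hx2]
          rw [h1]
          refine hdisc _ hy1 _ ?_
          rw [norm_smul, Real.norm_of_nonneg (by positivity), div_mul_eq_mul_div,
            div_le_iff₀ (by positivity)]
          have := norm_nonneg u
          have := norm_nonneg y
          simp only
          nlinarith
        · obtain ⟨v, hv, hv1⟩ := three_dirs x.2
          refine ⟨v, hv, ?_⟩
          have hx0 : 0 < ‖x.2‖ := norm_pos_iff.2 hx2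
          set u : ℂ := x.2 - ((r * N : ℝ) : ℂ) * v with hu
          have hneg2 : u.re * x.2.re + u.im * x.2.im < 0 := by
            have h1 : u.re * x.2.re + u.im * x.2.im = ‖x.2‖ ^ 2 -
                (r * N) * (v.re * x.2.re + v.im * x.2.im) := by
              rw [← Complex.normSq_eq_norm_sq, Complex.normSq_apply, hu]
              simp only [Complex.sub_re, Complex.sub_im, Complex.re_ofReal_mul,
                Complex.im_ofReal_mul]
              ring
            rw [h1, hNr]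
            have h2 := hR2 x hx
            nlinarith
          set θ : ℝ := -(u.re * x.2.re + u.im * x.2.im) / (‖u‖ ^ 2 + 1) with hθ
          have hθ0 : 0 < θ := by
            rw [hθ]
            exact div_pos (by linarith) (by positivity)
          refine ⟨θ, hθ0, ?_⟩
          have h1 : x + θ • (((0 : ℂ), u) : ℂ × ℂ) = (x.1, x.2 + θ • u) := by
            ext1
            · simp
            · simp
          rw [h1]
          refine hdisc x hx _ ?_
          rw [← sq_le_sq₀ (norm_nonneg _) (norm_nonneg _), ← Complex.normSq_eq_norm_sq,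
            ← Complex.normSq_eq_norm_sq, Complex.normSq_apply, Complex.normSq_apply]
          simp only [Complex.real_smul, Complex.add_re, Complex.add_im, Complex.re_ofReal_mul,
            Complex.im_ofReal_mul]
          have h2 : ‖u‖ ^ 2 = u.re * u.re + u.im * u.im := by
            rw [← Complex.normSq_eq_norm_sq, Complex.normSq_apply]
          have h3 : θ * (‖u‖ ^ 2 + 1) = -(u.re * x.2.re + u.im * x.2.im) := by
            rw [hθ]; field_simp
          rw [h2] at h3
          have h4 : θ * (u.re * u.re + u.im * u.im) ≤ -(u.re * x.2.re + u.im * x.2.im) := by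
            nlinarith
          nlinarith
      obtain ⟨v, hv, hcn⟩ := hvu
      have h1 := Co.of hK hcn hy
      have h2 : (((0 : ℂ), x.2 - ((r * N : ℝ) : ℂ) * v) : ℂ × ℂ) +
          ((x.1 + r • w, (0 : ℂ)) - x) = r • ((w, -((N : ℂ) * v)) : ℂ × ℂ) := by
        ext1
        · simp
        · simp only [Prod.snd_add, Prod.snd_sub, Prod.smul_snd, Complex.real_smul]
          push_cast
          ring
      rw [h2] at h1
      obtain ⟨ε, hε, h3⟩ := h1.smul (c := 1 / r) (by positivity)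
      refine ⟨(-w, (N : ℂ) * v), Finset.mem_union_right _
        (Finset.mem_image.2 ⟨(w, v), Finset.mem_product.2 ⟨hw, hv⟩, rfl⟩), ε, hε, ?_⟩
      rw [smul_smul, smul_smul, mul_assoc, one_div, inv_mul_cancel₀ hr.ne', mul_one] at h3
      have h4 : x - ε • ((-w, (N : ℂ) * v) : ℂ × ℂ) = x + ε • ((w, -((N : ℂ) * v)) : ℂ × ℂ) := by
        ext1
        · simp
        · simp [sub_eq_add_neg]
      rw [h4]
      exact h3)
  exact ⟨T, hT.trans hDc, hcov⟩

end

/-- the interior of a parallelogram -/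
theorem par_interior {F : Set ℂ} {c a b : ℂ} (hi : (interior F).Nonempty)
    (hF : F = {x | ∃ s t : ℝ, |s| ≤ 1 ∧ |t| ≤ 1 ∧ x = c + s • a + t • b}) {s t : ℝ}
    (hs : |s| < 1) (ht : |t| < 1) : c + s • a + t • b ∈ interior F := by
  let L : ℝ × ℝ →ₗ[ℝ] ℂ :=
    (LinearMap.fst ℝ ℝ ℝ).smulRight a + (LinearMap.snd ℝ ℝ ℝ).smulRight b
  have hL : ∀ q : ℝ × ℝ, L q = q.1 • a + q.2 • b := fun q => rfl
  have hsurj : Function.Surjective L := by
    rw [← LinearMap.range_eq_top]
    apply Submodule.eq_top_of_nonempty_interior'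
    obtain ⟨x, hx⟩ := hi
    refine ⟨x - c, ?_⟩
    have h1 : (fun z : ℂ => z + c) ⁻¹' (interior F) ⊆ interior (L.range : Set ℂ) := by
      refine interior_maximal ?_ (isOpen_interior.preimage (by fun_prop))
      intro z hz
      have h2 : z + c ∈ F := interior_subset hz
      rw [hF] at h2
      obtain ⟨s', t', -, -, h3⟩ := h2
      refine ⟨(s', t'), ?_⟩
      rw [hL]
      have : z = s' • a + t' • b := by
        have h4 : z = (z + c) - c := by ring
        rw [h4, h3]; abel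
      exact this.symm
    apply h1
    show x - c + c ∈ interior F
    rw [sub_add_cancel]
    exact hx
  have hopen : IsOpenMap L := LinearMap.isOpenMap_of_finiteDimensional L hsurj
  have hopen2 : IsOpenMap (fun q : ℝ × ℝ => c + L q) := (Homeomorph.addLeft c).isOpenMap.comp hopen
  set U : Set (ℝ × ℝ) := {q | |q.1| < 1 ∧ |q.2| < 1} with hU
  have hUo : IsOpen U :=
    (isOpen_lt (continuous_fst.abs : Continuous fun q : ℝ × ℝ => |q.1|) continuous_const).inter
      (isOpen_lt (continuous_snd.abs : Continuous fun q : ℝ × ℝ => |q.2|) continuous_const)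
  have h5 : (fun q : ℝ × ℝ => c + L q) '' U ⊆ interior F := by
    refine interior_maximal ?_ (hopen2 U hUo)
    rintro _ ⟨q, hq, rfl⟩
    rw [hF]
    refine ⟨q.1, q.2, hq.1.le, hq.2.le, ?_⟩
    simp only [hL]
    abel
  have h6 := h5 ⟨(s, t), ⟨hs, ht⟩, rfl⟩
  simp only [hL] at h6
  rw [← add_assoc] at h6
  exact h6

/-- the four directions -/
noncomputable def dr (a b : ℂ) (q : ℝ × ℝ) : ℂ := -(q.1 • a + q.2 • b)

/-- the four signs -/
noncomputable def Cs : Finset (ℝ × ℝ) := {(1, 1), (1, -1), (-1, 1), (-1, -1)}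

theorem Cs_card : Cs.card ≤ 4 := by
  unfold Cs; exact Finset.card_le_four

theorem mem_Cs {q : ℝ × ℝ} (hq : q ∈ Cs) : (q.1 = 1 ∨ q.1 = -1) ∧ (q.2 = 1 ∨ q.2 = -1) := by
  simp only [Cs, Finset.mem_insert, Finset.mem_singleton] at hq
  rcases hq with rfl | rfl | rfl | rfl <;> simp

theorem Cs_mem {q : ℝ × ℝ} (h1 : q.1 = 1 ∨ q.1 = -1) (h2 : q.2 = 1 ∨ q.2 = -1) : q ∈ Cs := by
  obtain ⟨x, y⟩ := q
  simp only [Cs, Finset.mem_insert, Finset.mem_singleton]
  rcases h1 with h1 | h1 <;> rcases h2 with h2 | h2 <;> simp only at h1 h2 <;> subst h1 h2 <;> simp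

theorem lit1 {F : Set ℂ} {c a b : ℂ} (hi : (interior F).Nonempty)
    (hF : F = {x | ∃ s t : ℝ, |s| ≤ 1 ∧ |t| ≤ 1 ∧ x = c + s • a + t • b}) {s t : ℝ}
    (hs : |s| ≤ 1) (ht : |t| ≤ 1) {q : ℝ × ℝ} (hq : q ∈ Cs) (h1 : s ≠ -q.1) (h2 : t ≠ -q.2) :
    Co F (c + s • a + t • b) (dr a b q) := by
  obtain ⟨q1, q2⟩ := mem_Cs hq
  obtain ⟨s1, s2⟩ := abs_le.1 hs
  obtain ⟨t1, t2⟩ := abs_le.1 ht
  have g1 : 0 < 1 + q.1 * s := by
    rcases q1 with h | h
    · rw [h] at h1 ⊢
      have := lt_of_le_of_ne s1 (Ne.symm h1)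
      linarith
    · rw [h] at h1 ⊢
      rw [neg_neg] at h1
      have := lt_of_le_of_ne s2 h1
      linarith
  have g2 : 0 < 1 + q.2 * t := by
    rcases q2 with h | h
    · rw [h] at h2 ⊢
      have := lt_of_le_of_ne t1 (Ne.symm h2)
      linarith
    · rw [h] at h2 ⊢
      rw [neg_neg] at h2
      have := lt_of_le_of_ne t2 h2
      linarith
  set r : ℝ := min (1 + q.1 * s) (1 + q.2 * t) / 2 with hr
  have hr0 : 0 < r := by
    rw [hr]
    have := lt_min g1 g2
    linarith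
  have hr1 : 2 * r ≤ 1 + q.1 * s := by
    have := min_le_left (1 + q.1 * s) (1 + q.2 * t)
    rw [hr]; linarith
  have hr2 : 2 * r ≤ 1 + q.2 * t := by
    have := min_le_right (1 + q.1 * s) (1 + q.2 * t)
    rw [hr]; linarith
  refine ⟨r, hr0, ?_⟩
  have e : c + s • a + t • b + r • dr a b q = c + (s - r * q.1) • a + (t - r * q.2) • b := by
    unfold dr
    module
  rw [e]
  apply par_interior hi hF
  · rw [abs_lt]
    rcases q1 with h | h <;> rw [h] at hr1 ⊢ <;> constructor <;> linarith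
  · rw [abs_lt]
    rcases q2 with h | h <;> rw [h] at hr2 ⊢ <;> constructor <;> linarith

/-- all points but one corner are lit by three directions -/
theorem lit3 {F : Set ℂ} {c a b : ℂ} (hi : (interior F).Nonempty)
    (hF : F = {x | ∃ s t : ℝ, |s| ≤ 1 ∧ |t| ≤ 1 ∧ x = c + s • a + t • b}) {s t : ℝ}
    (hs : |s| ≤ 1) (ht : |t| ≤ 1) {v : ℝ × ℝ} (hv : v ∈ Cs) (h : (s, t) ≠ v) :
    ∃ q ∈ Cs.erase v, Co F (c + s • a + t • b) (dr a b q) := by
  obtain ⟨v1, v2⟩ := mem_Cs hv
  by_cases h1 : s = v.1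
  · have h2 : t ≠ v.2 := by
      intro h2
      exact h (Prod.ext h1 h2)
    refine ⟨(v.1, -v.2), ?_, ?_⟩
    · refine Finset.mem_erase.2 ⟨?_, Cs_mem v1 ?_⟩
      · intro h3
        have h4 : -v.2 = v.2 := congrArg Prod.snd h3
        rcases v2 with h5 | h5 <;> rw [h5] at h4 <;> norm_num at h4
      · rcases v2 with h5 | h5 <;> simp [h5]
    · refine lit1 hi hF hs ht (Cs_mem v1 ?_) ?_ ?_
      · rcases v2 with h5 | h5 <;> simp [h5]
      · simp only
        rw [h1]
        rcases v1 with h5 | h5 <;> rw [h5] <;> norm_num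
      · simpa using h2
  · -- choose the second sign freely
    obtain ⟨τ, hτ, hτ2⟩ : ∃ τ : ℝ, (τ = 1 ∨ τ = -1) ∧ t ≠ -τ := by
      by_cases h3 : t = -1
      · exact ⟨-1, Or.inr rfl, by rw [h3]; norm_num⟩
      · exact ⟨1, Or.inl rfl, h3⟩
    have hneg : -v.1 = 1 ∨ -v.1 = -1 := by
      rcases v1 with h5 | h5 <;> simp [h5]
    refine ⟨(-v.1, τ), ?_, ?_⟩
    · refine Finset.mem_erase.2 ⟨?_, Cs_mem hneg hτ⟩
      intro h3
      have h4 : -v.1 = v.1 := congrArg Prod.fst h3
      rcases v1 with h5 | h5 <;> rw [h5] at h4 <;> norm_num at h4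
    · refine lit1 hi hF hs ht (Cs_mem hneg hτ) ?_ hτ2
      simpa using h1

theorem lit4 {F : Set ℂ} {c a b : ℂ} (hi : (interior F).Nonempty)
    (hF : F = {x | ∃ s t : ℝ, |s| ≤ 1 ∧ |t| ≤ 1 ∧ x = c + s • a + t • b}) {s t : ℝ}
    (hs : |s| ≤ 1) (ht : |t| ≤ 1) :
    ∃ q ∈ Cs, Co F (c + s • a + t • b) (dr a b q) := by
  obtain ⟨τ, hτ, hτ2⟩ : ∃ τ : ℝ, (τ = 1 ∨ τ = -1) ∧ t ≠ -τ := by
    by_cases h3 : t = -1
    · exact ⟨-1, Or.inr rfl, by rw [h3]; norm_num⟩
    · exact ⟨1, Or.inl rfl, h3⟩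
  obtain ⟨σ, hσ, hσ2⟩ : ∃ σ : ℝ, (σ = 1 ∨ σ = -1) ∧ s ≠ -σ := by
    by_cases h3 : s = -1
    · exact ⟨-1, Or.inr rfl, by rw [h3]; norm_num⟩
    · exact ⟨1, Or.inl rfl, h3⟩
  exact ⟨(σ, τ), Cs_mem hσ hτ, lit1 hi hF hs ht (Cs_mem hσ hτ) hσ2 hτ2⟩

/-- the points other than two opposite corners are lit by two directions -/
theorem lit2 {F : Set ℂ} {c a b : ℂ} (hi : (interior F).Nonempty)
    (hF : F = {x | ∃ s t : ℝ, |s| ≤ 1 ∧ |t| ≤ 1 ∧ x = c + s • a + t • b}) {s t : ℝ}
    (hs : |s| ≤ 1) (ht : |t| ≤ 1) (h1 : (s, t) ≠ ((1 : ℝ), (-1 : ℝ)))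
    (h2 : (s, t) ≠ ((-1 : ℝ), (1 : ℝ))) :
    ∃ q ∈ ({(1, 1), (-1, -1)} : Finset (ℝ × ℝ)), Co F (c + s • a + t • b) (dr a b q) := by
  by_cases h3 : s = -1
  · have h4 : t ≠ 1 := fun h => h2 (by rw [h3, h])
    refine ⟨(-1, -1), by simp, lit1 hi hF hs ht (by simp [Cs]) ?_ ?_⟩
    · rw [h3]; norm_num
    · simpa using h4
  · by_cases h5 : t = -1
    · have h4 : s ≠ 1 := fun h => h1 (by rw [h5, h])
      refine ⟨(-1, -1), by simp, lit1 hi hF hs ht (by simp [Cs]) ?_ ?_⟩
      · simpa using h4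
      · rw [h5]; norm_num
    · exact ⟨(1, 1), by simp, lit1 hi hF hs ht (by simp [Cs]) h3 h5⟩

theorem w5_of (h : Pool.Agent.Zk84.M4.L1) : Pool.Agent.Zk84.M4.W5 := by
  classical
  intro K hK hc hi hinv
  obtain ⟨hFi, hlift⟩ := base_lift hK hi hinv
  have hax := ax_mem hK hinv
  -- points with a trivial fibre
  have hnp : ∀ x ∈ K, ¬ Pos K x.1 → ∀ w : ℂ, Co (Base K) x.1 w → Co K x ((w, 0) : ℂ × ℂ) := by
    intro x hx hP w hw
    have hx2 : x.2 = 0 := by
      by_contra hne
      exact hP ⟨x.2, hne, hx⟩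
    obtain ⟨ε, hε, h1⟩ := hw
    refine ⟨ε, hε, ?_⟩
    have h2 : x + ε • ((w, 0) : ℂ × ℂ) = (x.1 + ε • w, 0) := by
      ext1
      · simp
      · simp [hx2]
    rw [h2]
    exact hlift _ h1
  rcases h (Base K) (base_convex hK) (base_compact hK hc hinv) hFi with h1 | ⟨c, a, b, hF⟩
  · obtain ⟨W, hW, hW1⟩ := h1
    refine cov_of hK hc hi hinv W W 12 (by omega) fun x hx => ?_
    obtain ⟨w, hw, hw1⟩ := hW1 x.1 (hax x hx)
    by_cases hP : Pos K x.1
    · exact Or.inr ⟨⟨w, hw, hw1⟩, hP⟩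
    · exact Or.inl ⟨w, hw, hnp x hx hP w hw1⟩
  · -- the parallelogram
    have hpar : ∀ x ∈ K, ∃ s t : ℝ, |s| ≤ 1 ∧ |t| ≤ 1 ∧ x.1 = c + s • a + t • b := by
      intro x hx
      have := hax x hx
      have h2 : x.1 ∈ Base K := this
      rw [hF] at h2
      exact h2
    have hbase : ∀ s t : ℝ, |s| ≤ 1 → |t| ≤ 1 → c + s • a + t • b ∈ Base K := by
      intro s t hs ht
      rw [hF]
      exact ⟨s, t, hs, ht, rfl⟩
    have hC4 := Cs_card
    by_cases hall : ∀ q ∈ Cs, Pos K (c + q.1 • a + q.2 • b)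
    · -- all fibres are proper
      have hposall : ∀ s t : ℝ, |s| ≤ 1 → |t| ≤ 1 → Pos K (c + s • a + t • b) := by
        have hedge : ∀ σ : ℝ, (σ = 1 ∨ σ = -1) → ∀ t : ℝ, |t| ≤ 1 →
            Pos K (c + σ • a + t • b) := by
          intro σ hσ t ht
          obtain ⟨t1, t2⟩ := abs_le.1 ht
          have hσ1 : |σ| ≤ 1 := by rcases hσ with h | h <;> simp [h]
          have k1 := hall (σ, 1) (Cs_mem hσ (Or.inl rfl))
          have k2 := hall (σ, -1) (Cs_mem hσ (Or.inr rfl))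
          have k3 := pos_segment hK k1 k2 (hbase _ _ hσ1 (by simp))
            (s := (1 + t) / 2) (t := (1 - t) / 2) (by linarith) (by linarith) (by ring)
          have e : ((1 + t) / 2) • (c + σ • a + (1 : ℝ) • b) +
              ((1 - t) / 2) • (c + σ • a + (-1 : ℝ) • b) = c + σ • a + t • b := by module
          simp only at k3
          rwa [e] at k3
        intro s t hs ht
        obtain ⟨s1, s2⟩ := abs_le.1 hs
        have k3 := pos_segment hK (hedge 1 (Or.inl rfl) t ht) (hedge (-1) (Or.inr rfl) t ht)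
          (hbase _ _ (by simp) ht)
          (s := (1 + s) / 2) (t := (1 - s) / 2) (by linarith) (by linarith) (by ring)
        have e : ((1 + s) / 2) • (c + (1 : ℝ) • a + t • b) +
            ((1 - s) / 2) • (c + (-1 : ℝ) • a + t • b) = c + s • a + t • b := by module
        rwa [e] at k3
      refine cov_of hK hc hi hinv (Cs.image (dr a b)) ∅ 12 ?_ fun x hx => ?_
      · have := Finset.card_image_le (s := Cs) (f := dr a b)
        rw [Finset.card_empty]
        omega
      · obtain ⟨s, t, hs, ht, hst⟩ := hpar x hx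
        obtain ⟨q, hq, hq1⟩ := lit4 hFi hF hs ht
        right
        rw [hst]
        exact ⟨⟨_, Finset.mem_image_of_mem _ hq, hq1⟩, hposall s t hs ht⟩
    · push Not at hall
      obtain ⟨v0, hv0, hv0P⟩ := hall
      by_cases hex : ∃ q ∈ Cs, Pos K (c + q.1 • a + q.2 • b)
      · obtain ⟨v1, hv1, hv1P⟩ := hex
        have e0 : (Cs.erase v0).card + 1 = Cs.card := Finset.card_erase_add_one hv0
        have e1 : (Cs.erase v1).card + 1 = Cs.card := Finset.card_erase_add_one hv1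
        refine cov_of hK hc hi hinv ((Cs.erase v0).image (dr a b)) ((Cs.erase v1).image (dr a b))
          12 ?_ fun x hx => ?_
        · have i0 := Finset.card_image_le (s := Cs.erase v0) (f := dr a b)
          have i1 := Finset.card_image_le (s := Cs.erase v1) (f := dr a b)
          omega
        · obtain ⟨s, t, hs, ht, hst⟩ := hpar x hx
          by_cases hP : Pos K x.1
          · right
            have hne : (s, t) ≠ v0 := by
              intro h0
              apply hv0P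
              rw [← h0]
              simp only
              rw [← hst]
              exact hP
            obtain ⟨q, hq, hq1⟩ := lit3 hFi hF hs ht hv0 hne
            refine ⟨⟨_, Finset.mem_image_of_mem _ hq, ?_⟩, hP⟩
            rw [hst]
            exact hq1
          · left
            have hne : (s, t) ≠ v1 := by
              intro h0
              apply hP
              rw [hst]
              rw [← h0] at hv1P
              exact hv1P
            obtain ⟨q, hq, hq1⟩ := lit3 hFi hF hs ht hv1 hne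
            refine ⟨_, Finset.mem_image_of_mem _ hq, hnp x hx hP _ ?_⟩
            rw [hst]
            exact hq1
      · push Not at hex
        refine cov_of hK hc hi hinv
          ((({(1, 1), (-1, -1)} : Finset (ℝ × ℝ))).image (dr a b)) (Cs.image (dr a b))
          12 ?_ fun x hx => ?_
        · have i0 := Finset.card_image_le (s := ({(1, 1), (-1, -1)} : Finset (ℝ × ℝ)))
            (f := dr a b)
          have i1 := Finset.card_image_le (s := Cs) (f := dr a b)
          have i2 : (({(1, 1), (-1, -1)} : Finset (ℝ × ℝ))).card ≤ 2 := Finset.card_le_two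
          omega
        · obtain ⟨s, t, hs, ht, hst⟩ := hpar x hx
          by_cases hP : Pos K x.1
          · right
            have hne : ∀ v ∈ Cs, (s, t) ≠ v := by
              intro v hv h0
              apply hex v hv
              rw [← h0]
              simp only
              rw [← hst]
              exact hP
            obtain ⟨q, hq, hq1⟩ := lit2 hFi hF hs ht (hne _ (by simp [Cs])) (hne _ (by simp [Cs]))
            refine ⟨⟨_, Finset.mem_image_of_mem _ hq, ?_⟩, hP⟩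
            rw [hst]
            exact hq1
          · left
            obtain ⟨q, hq, hq1⟩ := lit4 hFi hF hs ht
            refine ⟨_, Finset.mem_image_of_mem _ hq, hnp x hx hP _ ?_⟩
            rw [hst]
            exact hq1

end Pool.Agent.Zk76.M4W5
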