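import Pool.Agent.Zk84.M4.Stm4

/-!
Circular bodies in `ℂ × ℂ`: twelve translates, from the two selection statements with one more
parameter (module W8k of M4).
-/

set_option autoImplicit false

open Set Topology

namespace Pool.Agent.Zk76.M4W8k

open Pool.Agent.Zk84.HC (cover_equiv)
open Pool.Agent.Zk84.M4 (Dom SelK W8k W8)

/-- the direction `-u` leads from `x` into the interior -/
theorem illuminate {K : Set (ℂ × ℂ)} (hK : Convex ℝ K) (hb : Balanced ℂ K) (h0 : K ∈ 𝓝 0)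
    (h1 : ((1 : ℂ), (0 : ℂ)) ∈ K) (h2 : ((0 : ℂ), (1 : ℂ)) ∈ K) {κ : ℝ}
    (hκ : gauge K (((1 : ℂ), (1 : ℂ)) : ℂ × ℂ) ≤ κ) {x u : ℂ × ℂ} (hx : x ∈ K)
    (hs : ‖x.1‖ ≤ 1 ∧ ‖x.2‖ ≤ 1) {l w p s c : ℝ} {v : ℂ} (hp : 0 ≤ p) (hs0 : 0 ≤ s)
    (hc0 : 0 ≤ c) (hv : ‖v‖ ≤ 1)
    (h : ‖(⟨l + p, w⟩ : ℂ) * x.1 - c * v - u.1‖ + ‖(⟨l + s, w⟩ : ℂ) * x.2 - c * v - u.2‖ +
      κ * c < l) :
    ∃ ε : ℝ, 0 < ε ∧ x - ε • u ∈ interior K := by
  set q := gaugeSeminorm hb hK (absorbent_nhds_zero h0) with hq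
  have pK : ∀ y ∈ K, q y ≤ 1 := fun y hy => gauge_le_one_of_mem hy
  have k1 : (x.1, (0 : ℂ)) ∈ K := by
    have := balanced_iff_smul_mem.1 hb hs.1 h1
    simpa using this
  have k2 : ((0 : ℂ), x.2) ∈ K := by
    have := balanced_iff_smul_mem.1 hb hs.2 h2
    simpa using this
  have k3 : q (((1 : ℂ), (1 : ℂ)) : ℂ × ℂ) ≤ κ := hκ
  set μ : ℂ := ⟨l + p + s, w⟩ with hμ
  set a : ℂ := (⟨l + p, w⟩ : ℂ) * x.1 - c * v - u.1 with ha
  set b : ℂ := (⟨l + s, w⟩ : ℂ) * x.2 - c * v - u.2 with hb'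
  set A := ‖a‖ + ‖b‖ + κ * c with hA
  set ε := (l - A) / (‖μ‖ ^ 2 + 1) with hε
  have hpos : (0 : ℝ) < ‖μ‖ ^ 2 + 1 := by positivity
  have ε0 : 0 < ε := div_pos (by linarith) hpos
  have ε1 : ε * ‖μ‖ ^ 2 < l - A := by
    rw [hε, div_mul_eq_mul_div, div_lt_iff₀ hpos]
    nlinarith [norm_nonneg μ]
  refine ⟨ε, ε0, ?_⟩
  have hre : μ.re = l + p + s := rfl
  have eμ : μ = (l : ℂ) + p + s + w * Complex.I := by
    apply Complex.ext <;> simp [hμ]
  have ea : (⟨l + p, w⟩ : ℂ) = (l : ℂ) + p + w * Complex.I := by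
    apply Complex.ext <;> simp
  have eb : (⟨l + s, w⟩ : ℂ) = (l : ℂ) + s + w * Complex.I := by
    apply Complex.ext <;> simp
  have hdec : x - ε • u = (1 - (ε : ℂ) * μ) • x +
      ((((ε * p : ℝ) : ℂ) • ((0 : ℂ), x.2) + ((ε * s : ℝ) : ℂ) • (x.1, (0 : ℂ))) +
        ((((ε : ℂ) * a) • ((1 : ℂ), (0 : ℂ)) + ((ε : ℂ) * b) • ((0 : ℂ), (1 : ℂ))) +
          ((((ε * c : ℝ) : ℂ) * v) • (((1 : ℂ), (1 : ℂ)) : ℂ × ℂ)))) := by
    refine Prod.ext ?_ ?_
    · simp only [Prod.fst_sub, Prod.smul_fst, Prod.fst_add, smul_eq_mul, Complex.real_smul, ha,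
        ea, eμ]
      push_cast
      ring
    · simp only [Prod.snd_sub, Prod.smul_snd, Prod.snd_add, smul_eq_mul, Complex.real_smul, hb',
        eb, eμ]
      push_cast
      ring
  have hn : ‖(1 - (ε : ℂ) * μ)‖ ≤ 1 - ε * μ.re + (ε * ‖μ‖) ^ 2 := by
    have hsq : ‖(1 - (ε : ℂ) * μ)‖ ^ 2 = 1 - 2 * (ε * μ.re) + (ε * ‖μ‖) ^ 2 := by
      rw [mul_pow, Complex.sq_norm, Complex.sq_norm, Complex.normSq_apply, Complex.normSq_apply]
      simp
      ring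
    have hle : (ε * μ.re) ^ 2 ≤ (ε * ‖μ‖) ^ 2 := by
      have := Complex.abs_re_le_norm μ
      have h3 : μ.re ^ 2 ≤ ‖μ‖ ^ 2 := sq_le_sq' (by linarith [(abs_le.1 this).1]) (abs_le.1 this).2
      nlinarith [sq_nonneg ε]
    have hnn : 0 ≤ 1 - ε * μ.re + (ε * ‖μ‖) ^ 2 := by nlinarith [sq_nonneg (ε * μ.re - 1 / 2)]
    refine le_of_sq_le_sq ?_ hnn
    rw [hsq]
    nlinarith [sq_nonneg (ε * μ.re - (ε * ‖μ‖) ^ 2), sq_nonneg (ε * ‖μ‖)]
  have hle : q (x - ε • u) < 1 := by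
    rw [hdec]
    refine lt_of_le_of_lt (map_add_le_add q _ _) ?_
    have a1 : q ((1 - (ε : ℂ) * μ) • x) ≤ 1 - ε * μ.re + (ε * ‖μ‖) ^ 2 := by
      rw [map_smul_eq_mul]
      calc ‖(1 - (ε : ℂ) * μ)‖ * q x ≤ ‖(1 - (ε : ℂ) * μ)‖ * 1 :=
            mul_le_mul_of_nonneg_left (pK x hx) (norm_nonneg _)
        _ ≤ _ := by rw [mul_one]; exact hn
    have a2 : q (((ε : ℂ) * a) • ((1 : ℂ), (0 : ℂ))) ≤ ε * ‖a‖ := by
      rw [map_smul_eq_mul, norm_mul, Complex.norm_real, Real.norm_of_nonneg ε0.le]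
      exact mul_le_of_le_one_right (by positivity) (pK _ h1)
    have a3 : q (((ε : ℂ) * b) • ((0 : ℂ), (1 : ℂ))) ≤ ε * ‖b‖ := by
      rw [map_smul_eq_mul, norm_mul, Complex.norm_real, Real.norm_of_nonneg ε0.le]
      exact mul_le_of_le_one_right (by positivity) (pK _ h2)
    have a5 : q (((ε * p : ℝ) : ℂ) • ((0 : ℂ), x.2)) ≤ ε * p := by
      rw [map_smul_eq_mul, Complex.norm_real, Real.norm_of_nonneg (by positivity)]
      exact mul_le_of_le_one_right (by positivity) (pK _ k2)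
    have a6 : q (((ε * s : ℝ) : ℂ) • (x.1, (0 : ℂ))) ≤ ε * s := by
      rw [map_smul_eq_mul, Complex.norm_real, Real.norm_of_nonneg (by positivity)]
      exact mul_le_of_le_one_right (by positivity) (pK _ k1)
    have a9 : q ((((ε * c : ℝ) : ℂ) * v) • (((1 : ℂ), (1 : ℂ)) : ℂ × ℂ)) ≤ ε * (κ * c) := by
      rw [map_smul_eq_mul, norm_mul, Complex.norm_real, Real.norm_of_nonneg (by positivity)]
      have h10 : 0 ≤ q (((1 : ℂ), (1 : ℂ)) : ℂ × ℂ) := apply_nonneg q _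
      calc ε * c * ‖v‖ * q (((1 : ℂ), (1 : ℂ)) : ℂ × ℂ)
          ≤ ε * c * 1 * q (((1 : ℂ), (1 : ℂ)) : ℂ × ℂ) := by gcongr
        _ ≤ ε * c * 1 * κ := by gcongr
        _ = ε * (κ * c) := by ring
    have a4 := map_add_le_add q (((ε : ℂ) * a) • ((1 : ℂ), (0 : ℂ)))
      (((ε : ℂ) * b) • ((0 : ℂ), (1 : ℂ)))
    have a7 := map_add_le_add q (((ε * p : ℝ) : ℂ) • ((0 : ℂ), x.2))
      (((ε * s : ℝ) : ℂ) • (x.1, (0 : ℂ)))
    have a11 := map_add_le_add q ((((ε : ℂ) * a) • ((1 : ℂ), (0 : ℂ)) +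
      ((ε : ℂ) * b) • ((0 : ℂ), (1 : ℂ)))) ((((ε * c : ℝ) : ℂ) * v) •
        (((1 : ℂ), (1 : ℂ)) : ℂ × ℂ))
    have a8 := map_add_le_add q ((((ε * p : ℝ) : ℂ) • ((0 : ℂ), x.2) +
      ((ε * s : ℝ) : ℂ) • (x.1, (0 : ℂ)))) ((((ε : ℂ) * a) • ((1 : ℂ), (0 : ℂ)) +
      ((ε : ℂ) * b) • ((0 : ℂ), (1 : ℂ))) + ((((ε * c : ℝ) : ℂ) * v) •
        (((1 : ℂ), (1 : ℂ)) : ℂ × ℂ)))
    rw [hre] at a1
    have e2 : (ε * ‖μ‖) ^ 2 = ε * (ε * ‖μ‖ ^ 2) := by ring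
    rw [e2] at a1
    have e3 := mul_lt_mul_of_pos_left ε1 ε0
    have e4 : ε * (l - A) = ε * l - ε * ‖a‖ - ε * ‖b‖ - ε * (κ * c) := by rw [hA]; ring
    have e5 : ε * (l + p + s) = ε * l + ε * p + ε * s := by ring
    rw [e4] at e3
    rw [e5] at a1
    linarith
  exact (gauge_lt_one_iff_mem_interior hK h0).1 hle

/-- the possible points of the body -/
theorem dom_of {K : Set (ℂ × ℂ)} (hK : Convex ℝ K) (hb : Balanced ℂ K) (h0 : K ∈ 𝓝 0)
    (h1 : ((1 : ℂ), (0 : ℂ)) ∈ K) (h2 : ((0 : ℂ), (1 : ℂ)) ∈ K)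
    (hs : ∀ x ∈ K, ‖x.1‖ ≤ 1 ∧ ‖x.2‖ ≤ 1) {c : ℝ}
    (hc : ∀ e : ℂ, ‖e‖ = 1 → c ≤ gauge K (((1 : ℂ), e) : ℂ × ℂ)) :
    ∀ x ∈ K, Dom 1 c x.1 x.2 := by
  set q := gaugeSeminorm hb hK (absorbent_nhds_zero h0) with hq
  have pK : ∀ y ∈ K, q y ≤ 1 := fun y hy => gauge_le_one_of_mem hy
  have hc' : ∀ a b : ℂ, ‖a‖ = ‖b‖ → c * ‖a‖ ≤ q ((a, b) : ℂ × ℂ) := by
    intro a b hab
    rcases eq_or_ne a 0 with h | h
    · have : ‖a‖ = 0 := by rw [h, norm_zero]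
      rw [this, mul_zero]
      exact apply_nonneg q _
    · have e1 : ((a, b) : ℂ × ℂ) = a • (((1 : ℂ), b / a) : ℂ × ℂ) := by
        refine Prod.ext ?_ ?_
        · simp
        · simp only [Prod.smul_snd, smul_eq_mul]
          rw [mul_div_cancel₀ _ h]
      rw [e1, map_smul_eq_mul, mul_comm]
      refine mul_le_mul_of_nonneg_left ?_ (norm_nonneg a)
      refine hc _ ?_
      rw [norm_div, hab, div_self]
      rw [← hab]
      exact norm_ne_zero_iff.2 h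
  have hext : ∀ (r : ℝ) (a : ℂ), ‖a‖ ≤ r → ∃ b : ℂ, ‖b‖ = r ∧ ‖b - a‖ = r - ‖a‖ := by
    intro r a har
    rcases eq_or_ne a 0 with h | h
    · refine ⟨(r : ℂ), ?_, ?_⟩
      · rw [Complex.norm_real, Real.norm_of_nonneg (by rw [h, norm_zero] at har; exact har)]
      · rw [h, sub_zero, norm_zero, sub_zero, Complex.norm_real,
          Real.norm_of_nonneg (by rw [h, norm_zero] at har; exact har)]
    · have hn : 0 < ‖a‖ := norm_pos_iff.2 h
      refine ⟨((r / ‖a‖ : ℝ) : ℂ) * a, ?_, ?_⟩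
      · rw [norm_mul, Complex.norm_real, Real.norm_of_nonneg (div_nonneg (hn.le.trans har) hn.le)]
        field_simp
      · have e1 : ((r / ‖a‖ : ℝ) : ℂ) * a - a = (((r - ‖a‖) / ‖a‖ : ℝ) : ℂ) * a := by
          have : ((‖a‖ : ℝ) : ℂ) ≠ 0 := by exact_mod_cast hn.ne'
          push_cast
          field_simp
        rw [e1, norm_mul, Complex.norm_real,
          Real.norm_of_nonneg (div_nonneg (by linarith) hn.le)]
        field_simp
  intro x hx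
  refine ⟨(hs x hx).1, (hs x hx).2, ?_, ?_⟩
  · intro hle
    obtain ⟨b, hb1, hb2⟩ := hext ‖x.1‖ x.2 hle
    have e1 := hc' x.1 b hb1.symm
    have e2 : ((x.1, b) : ℂ × ℂ) = x + (b - x.2) • (((0 : ℂ), (1 : ℂ)) : ℂ × ℂ) := by
      refine Prod.ext ?_ ?_
      · simp
      · simp
    have e3 := map_add_le_add q x ((b - x.2) • (((0 : ℂ), (1 : ℂ)) : ℂ × ℂ))
    rw [← e2, map_smul_eq_mul, hb2] at e3
    have e4 : (‖x.1‖ - ‖x.2‖) * q (((0 : ℂ), (1 : ℂ)) : ℂ × ℂ) ≤ (‖x.1‖ - ‖x.2‖) * 1 :=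
      mul_le_mul_of_nonneg_left (pK _ h2) (by linarith)
    have e5 := pK x hx
    linarith
  · intro hle
    obtain ⟨b, hb1, hb2⟩ := hext ‖x.2‖ x.1 hle
    have e1 := hc' b x.2 hb1
    rw [hb1] at e1
    have e2 : ((b, x.2) : ℂ × ℂ) = x + (b - x.1) • (((1 : ℂ), (0 : ℂ)) : ℂ × ℂ) := by
      refine Prod.ext ?_ ?_
      · simp
      · simp
    have e3 := map_add_le_add q x ((b - x.1) • (((1 : ℂ), (0 : ℂ)) : ℂ × ℂ))
    rw [← e2, map_smul_eq_mul, hb2] at e3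
    have e4 : (‖x.2‖ - ‖x.1‖) * q (((1 : ℂ), (0 : ℂ)) : ℂ × ℂ) ≤ (‖x.2‖ - ‖x.1‖) * 1 :=
      mul_le_mul_of_nonneg_left (pK _ h1) (by linarith)
    have e5 := pK x hx
    linarith

/-- a body in normal position, from one selection statement -/
theorem cover_sel {c κ : ℝ} (hS : SelK c κ) {K : Set (ℂ × ℂ)} (hK : Convex ℝ K)
    (hcp : IsCompact K) (hb : Balanced ℂ K) (h0 : K ∈ 𝓝 0) (h1 : ((1 : ℂ), (0 : ℂ)) ∈ K)
    (h2 : ((0 : ℂ), (1 : ℂ)) ∈ K) (hs : ∀ x ∈ K, ‖x.1‖ ≤ 1 ∧ ‖x.2‖ ≤ 1)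
    (hc : ∀ e : ℂ, ‖e‖ = 1 → c ≤ gauge K (((1 : ℂ), e) : ℂ × ℂ))
    (hκ : gauge K (((1 : ℂ), (1 : ℂ)) : ℂ × ℂ) ≤ κ) :
    ∃ S : Finset (ℂ × ℂ), S.card ≤ 12 ∧ K ⊆ ⋃ t ∈ S, (fun x => t + x) '' interior K := by
  obtain ⟨D, hD, hsel⟩ := hS
  obtain ⟨S, hS, hcov⟩ := Pool.Agent.H765R3.Had.cover_of_dirs hK hcp D (fun z hz => by
      obtain ⟨u, hu, l, w, p, s, a, v, hp, hs0, ha, hv, h⟩ := hsel z.1 z.2
        (dom_of hK hb h0 h1 h2 hs hc z hz)
      exact ⟨u, hu, illuminate hK hb h0 h1 h2 hκ hz (hs z hz) hp hs0 ha hv h⟩)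
  exact ⟨S, hS.trans hD, hcov⟩

/-- the selection statements for a list of intervals which covers `[1, 2]` -/
def Many : Prop := ∀ c : ℝ, 1 ≤ c → c ≤ 2 → ∃ c0 κ : ℝ, c0 ≤ c ∧ c ≤ κ ∧ SelK c0 κ

/-- a body in normal position with `N(1, 1)` minimal -/
theorem cover_min (hM : Many) {K : Set (ℂ × ℂ)} (hK : Convex ℝ K)
    (hcp : IsCompact K) (hb : Balanced ℂ K) (h0 : K ∈ 𝓝 0) (h1 : ((1 : ℂ), (0 : ℂ)) ∈ K)
    (h2 : ((0 : ℂ), (1 : ℂ)) ∈ K) (hs : ∀ x ∈ K, ‖x.1‖ ≤ 1 ∧ ‖x.2‖ ≤ 1)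
    (hmin : ∀ e : ℂ, ‖e‖ = 1 → gauge K (((1 : ℂ), (1 : ℂ)) : ℂ × ℂ) ≤
      gauge K (((1 : ℂ), e) : ℂ × ℂ)) :
    ∃ S : Finset (ℂ × ℂ), S.card ≤ 12 ∧ K ⊆ ⋃ t ∈ S, (fun x => t + x) '' interior K := by
  have hlow : ∀ e : ℂ, ‖e‖ = 1 → 1 ≤ gauge K (((1 : ℂ), e) : ℂ × ℂ) := by
    intro e he
    by_contra hlt
    push Not at hlt
    obtain ⟨b, hb0, hb1, y, hy, hyx⟩ := exists_lt_of_gauge_lt (absorbent_nhds_zero h0) hlt
    have e1 : (b : ℂ) * y.1 = 1 := by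
      have := congrArg Prod.fst hyx
      simpa using this
    have e2 : b * ‖y.1‖ = 1 := by
      have := congrArg norm e1
      rw [norm_mul, Complex.norm_real, Real.norm_of_nonneg hb0.le, norm_one] at this
      exact this
    have e3 := (hs y hy).1
    nlinarith
  have hup : gauge K (((1 : ℂ), (1 : ℂ)) : ℂ × ℂ) ≤ 2 := by
    set q := gaugeSeminorm hb hK (absorbent_nhds_zero h0) with hq
    have e1 : (((1 : ℂ), (1 : ℂ)) : ℂ × ℂ) = ((1 : ℂ), (0 : ℂ)) + ((0 : ℂ), (1 : ℂ)) := by simp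
    have e3 := map_add_le_add q (((1 : ℂ), (0 : ℂ)) : ℂ × ℂ) (((0 : ℂ), (1 : ℂ)) : ℂ × ℂ)
    rw [← e1] at e3
    have e4 : q (((1 : ℂ), (0 : ℂ)) : ℂ × ℂ) ≤ 1 := gauge_le_one_of_mem h1
    have e5 : q (((0 : ℂ), (1 : ℂ)) : ℂ × ℂ) ≤ 1 := gauge_le_one_of_mem h2
    have e6 : gauge K (((1 : ℂ), (1 : ℂ)) : ℂ × ℂ) = q (((1 : ℂ), (1 : ℂ)) : ℂ × ℂ) := rfl
    linarith
  obtain ⟨c0, κ, hc0, hcκ, hS⟩ := hM _ (hlow 1 norm_one) hup
  exact cover_sel hS hK hcp hb h0 h1 h2 hs (fun e he => hc0.trans (hmin e he)) hcκ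

/-- the gauge of a preimage -/
theorem gauge_pre (L : (ℂ × ℂ) ≃L[ℝ] (ℂ × ℂ)) (K : Set (ℂ × ℂ)) (x : ℂ × ℂ) :
    gauge (L ⁻¹' K) x = gauge K (L x) := by
  rw [gauge_def', gauge_def']
  simp only [mem_preimage, map_smul]

/-- a body between the `ℓ₁` ball and the bidisc -/
theorem cover_normal (hM : Many) {K : Set (ℂ × ℂ)}
    (hK : Convex ℝ K) (hcp : IsCompact K) (hb : Balanced ℂ K) (h0 : K ∈ 𝓝 0)
    (h1 : ((1 : ℂ), (0 : ℂ)) ∈ K) (h2 : ((0 : ℂ), (1 : ℂ)) ∈ K)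
    (hs : ∀ x ∈ K, ‖x.1‖ ≤ 1 ∧ ‖x.2‖ ≤ 1) :
    ∃ S : Finset (ℂ × ℂ), S.card ≤ 12 ∧ K ⊆ ⋃ t ∈ S, (fun x => t + x) '' interior K := by
  have hcont : Continuous fun e : ℂ => gauge K (((1 : ℂ), e) : ℂ × ℂ) :=
    (continuous_gauge hK h0).comp (by fun_prop)
  obtain ⟨e0, he0, hmin⟩ := (isCompact_sphere (0 : ℂ) 1).exists_isMinOn ⟨1, by simp⟩
    hcont.continuousOn
  have hn : ‖e0‖ = 1 := by simpa using he0
  have hne : e0 ≠ 0 := by
    intro h
    rw [h, norm_zero] at hn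
    exact zero_ne_one hn
  let T : (ℂ × ℂ) ≃ₗ[ℝ] (ℂ × ℂ) :=
    { toFun := fun z => (z.1, e0 * z.2)
      map_add' := fun x y => by
        refine Prod.ext ?_ ?_
        · simp
        · simp [mul_add]
      map_smul' := fun r x => by
        refine Prod.ext ?_ ?_
        · simp
        · simp
          ring
      invFun := fun w => (w.1, w.2 / e0)
      left_inv := fun z => by
        refine Prod.ext ?_ ?_
        · simp
        · simp only
          rw [mul_div_cancel_left₀ _ hne]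
      right_inv := fun w => by
        refine Prod.ext ?_ ?_
        · simp
        · simp only
          rw [mul_div_cancel₀ _ hne] }
  let L : (ℂ × ℂ) ≃L[ℝ] (ℂ × ℂ) := T.toContinuousLinearEquiv
  have hL : ∀ z : ℂ × ℂ, L z = (z.1, e0 * z.2) := fun z => rfl
  refine cover_equiv L ?_
  have hc' : IsCompact (L ⁻¹' K) := L.toHomeomorph.isCompact_preimage.2 hcp
  refine cover_min hM (hK.linear_preimage L.toLinearEquiv.toLinearMap) hc' ?_ ?_ ?_ ?_ ?_ ?_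
  · rw [balanced_iff_smul_mem]
    intro w hw x hx
    have e : L (w • x) = w • L x := by
      simp only [hL]
      refine Prod.ext ?_ ?_
      · simp
      · simp
        ring
    show L (w • x) ∈ K
    rw [e]
    exact balanced_iff_smul_mem.1 hb hw hx
  · have : L 0 = 0 := map_zero L
    exact L.continuous.continuousAt.preimage_mem_nhds (by rw [this]; exact h0)
  · show L (1, 0) ∈ K
    rw [hL]; simpa using h1
  · show L (0, 1) ∈ K
    rw [hL]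
    have := balanced_iff_smul_mem.1 hb hn.le h2
    simpa using this
  · intro z hz
    have hz' : (z.1, e0 * z.2) ∈ K := hz
    have := hs _ hz'
    simpa [hn] using this
  · intro e he
    rw [gauge_pre, gauge_pre, hL, hL]
    have h3 : e0 * e ∈ Metric.sphere (0 : ℂ) 1 := by simp [hn, he]
    have := hmin h3
    simpa using this

/-- **circular bodies in `ℂ × ℂ`** -/
theorem cover_circular (hM : Many) {K : Set (ℂ × ℂ)}
    (hK : Convex ℝ K) (hc : IsCompact K)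
    (hi : (interior K).Nonempty) (hcirc : ∀ z : ℂ, ‖z‖ = 1 → ∀ x ∈ K, z • x ∈ K) :
    ∃ S : Finset (ℂ × ℂ), S.card ≤ 12 ∧ K ⊆ ⋃ t ∈ S, (fun x => t + x) '' interior K := by
  -- `0` is an interior point
  have hneg : ∀ y ∈ interior K, -y ∈ interior K := by
    intro y hy
    have hsub : -K ⊆ K := by
      intro w hw
      have := hcirc (-1) (by simp) (-w) hw
      simpa using this
    have h3 : -interior K = interior (-K) := (Homeomorph.neg (ℂ × ℂ)).preimage_interior K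
    have h4 : -y ∈ interior (-K) := by
      rw [← h3]; simpa using hy
    exact interior_mono hsub h4
  have h0i : (0 : ℂ × ℂ) ∈ interior K := by
    obtain ⟨y, hy⟩ := hi
    have := hK.interior hy (hneg y hy) (a := 1 / 2) (b := 1 / 2) (by norm_num) (by norm_num)
      (by norm_num)
    simpa using this
  have h0 : K ∈ 𝓝 (0 : ℂ × ℂ) := mem_interior_iff_mem_nhds.1 h0i
  have hb : Balanced ℂ K := by
    rw [balanced_iff_smul_mem]
    intro a ha x hx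
    rcases eq_or_ne a 0 with rfl | ha0
    · rw [zero_smul]; exact interior_subset h0i
    · have h5 : (a / ‖a‖) • x ∈ K := by
        refine hcirc _ ?_ x hx
        rw [norm_div, Complex.norm_real, norm_norm, div_self (norm_ne_zero_iff.2 ha0)]
      have h6 := hK h5 (interior_subset h0i) (norm_nonneg a) (sub_nonneg.2 ha)
        (by ring : ‖a‖ + (1 - ‖a‖) = 1)
      rw [smul_zero, add_zero] at h6
      have e : ‖a‖ • ((a / ‖a‖) • x) = a • x := by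
        rw [← Complex.coe_smul, smul_smul, mul_div_cancel₀]
        exact_mod_cast norm_ne_zero_iff.2 ha0
      rwa [e] at h6
  -- the maximal determinant
  have hKK : IsCompact (K ×ˢ K) := hc.prod hc
  have hcont : Continuous fun q : (ℂ × ℂ) × (ℂ × ℂ) => ‖q.1.1 * q.2.2 - q.1.2 * q.2.1‖ := by
    fun_prop
  obtain ⟨⟨a, b⟩, ⟨ha, hbK⟩, hmax⟩ := hKK.exists_isMaxOn
    ⟨(0, 0), interior_subset h0i, interior_subset h0i⟩ hcont.continuousOn
  set D := a.1 * b.2 - a.2 * b.1 with hD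
  have hmax' : ∀ x ∈ K, ∀ y ∈ K, ‖x.1 * y.2 - x.2 * y.1‖ ≤ ‖D‖ := by
    intro x hx y hy
    exact hmax (show (x, y) ∈ K ×ˢ K from ⟨hx, hy⟩)
  have hD0 : D ≠ 0 := by
    obtain ⟨r, hr, hball⟩ := Metric.mem_nhds_iff.1 h0
    intro hD1
    have e1 : (((r / 2 : ℝ) : ℂ), (0 : ℂ)) ∈ K := by
      refine hball ?_
      rw [mem_ball_zero_iff, Prod.norm_def]
      simp only [norm_zero]
      rw [max_lt_iff]
      refine ⟨?_, hr⟩
      rw [Complex.norm_real, Real.norm_of_nonneg (by linarith)]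
      linarith
    have e2 : ((0 : ℂ), ((r / 2 : ℝ) : ℂ)) ∈ K := by
      refine hball ?_
      rw [mem_ball_zero_iff, Prod.norm_def]
      simp only [norm_zero]
      rw [max_lt_iff]
      refine ⟨hr, ?_⟩
      rw [Complex.norm_real, Real.norm_of_nonneg (by linarith)]
      linarith
    have := hmax' _ e1 _ e2
    rw [hD1, norm_zero] at this
    have h7 := norm_le_zero_iff.1 this
    simp only [mul_zero, sub_zero] at h7
    rw [mul_self_eq_zero] at h7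
    have : r / 2 = 0 := by exact_mod_cast h7
    linarith
  -- the coordinates
  let T : (ℂ × ℂ) ≃ₗ[ℝ] (ℂ × ℂ) :=
    { toFun := fun z => z.1 • a + z.2 • b
      map_add' := fun x y => by
        simp only [Prod.fst_add, Prod.snd_add, add_smul]; abel
      map_smul' := fun r x => by
        refine Prod.ext ?_ ?_ <;> simp <;> ring
      invFun := fun w => ((w.1 * b.2 - w.2 * b.1) / D, (a.1 * w.2 - a.2 * w.1) / D)
      left_inv := fun z => by
        refine Prod.ext ?_ ?_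
        · simp only [Prod.fst_add, Prod.smul_fst, smul_eq_mul, Prod.snd_add, Prod.smul_snd]
          rw [div_eq_iff hD0, hD]; ring
        · simp only [Prod.fst_add, Prod.smul_fst, smul_eq_mul, Prod.snd_add, Prod.smul_snd]
          rw [div_eq_iff hD0, hD]; ring
      right_inv := fun w => by
        refine Prod.ext ?_ ?_
        · simp only [Prod.fst_add, Prod.smul_fst, smul_eq_mul]
          field_simp
          rw [hD]; ring
        · simp only [Prod.snd_add, Prod.smul_snd, smul_eq_mul]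
          field_simp
          rw [hD]; ring }
  let L : (ℂ × ℂ) ≃L[ℝ] (ℂ × ℂ) := T.toContinuousLinearEquiv
  have hL : ∀ z : ℂ × ℂ, L z = z.1 • a + z.2 • b := fun z => rfl
  refine cover_equiv L ?_
  have hc' : IsCompact (L ⁻¹' K) := L.toHomeomorph.isCompact_preimage.2 hc
  refine cover_normal hM (hK.linear_preimage L.toLinearEquiv.toLinearMap) hc' ?_ ?_ ?_ ?_ ?_
  · rw [balanced_iff_smul_mem]
    intro w hw x hx
    have e : L (w • x) = w • L x := by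
      simp only [hL, Prod.smul_fst, Prod.smul_snd, smul_eq_mul, smul_add, smul_smul]
    show L (w • x) ∈ K
    rw [e]
    exact balanced_iff_smul_mem.1 hb hw hx
  · have : L 0 = 0 := map_zero L
    exact L.continuous.continuousAt.preimage_mem_nhds (by rw [this]; exact h0)
  · show L (1, 0) ∈ K
    rw [hL]; simpa using ha
  · show L (0, 1) ∈ K
    rw [hL]; simpa using hbK
  · intro z hz
    have hz' : z.1 • a + z.2 • b ∈ K := hz
    constructor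
    · have h8 := hmax' _ hz' _ hbK
      have e : (z.1 • a + z.2 • b).1 * b.2 - (z.1 • a + z.2 • b).2 * b.1 = z.1 * D := by
        simp only [Prod.fst_add, Prod.smul_fst, smul_eq_mul, Prod.snd_add, Prod.smul_snd]
        rw [hD]; ring
      rw [e, norm_mul] at h8
      exact le_of_mul_le_mul_right (by linarith) (norm_pos_iff.2 hD0)
    · have h8 := hmax' _ ha _ hz'
      have e : a.1 * (z.1 • a + z.2 • b).2 - a.2 * (z.1 • a + z.2 • b).1 = z.2 * D := by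
        simp only [Prod.fst_add, Prod.smul_fst, smul_eq_mul, Prod.snd_add, Prod.smul_snd]
        rw [hD]; ring
      rw [e, norm_mul] at h8
      exact le_of_mul_le_mul_right (by linarith) (norm_pos_iff.2 hD0)

/-- **the weight one**, with several intervals -/
theorem w8m (h : ∀ c : ℝ, 1 ≤ c → c ≤ 2 → ∃ c0 κ : ℝ, c0 ≤ c ∧ c ≤ κ ∧ SelK c0 κ) : W8 :=
  fun _ hK hc hi hcirc => cover_circular h hK hc hi hcirc

/-- **the weight one** -/
theorem w8k : W8k := by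
  intro c hA hB
  refine w8m fun t ht1 ht2 => ?_
  rcases le_total t c with h | h
  · exact ⟨1, c, ht1, h, hA⟩
  · exact ⟨c, 2, h, ht2, hB⟩

end Pool.Agent.Zk76.M4W8k
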